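import Pool.Agent.Lib.FT.SpecA

set_option autoImplicit false

noncomputable section

namespace Pool.Agent.FT

namespace ASMM

variable {D : Type} [CStarAlgebra D] {τ : D →ₗ[ℂ] ℂ}

/-- Valid lists. -/
def VL {I : Type} (τ : D →ₗ[ℂ] ℂ) (S : I → StarSubalgebra ℂ D) (l : List (I × D)) : Prop :=
  (l.map Prod.fst).IsChain (· ≠ ·) ∧ ∀ p ∈ l, p.2 ∈ S p.1 ∧ τ p.2 = 0

theorem vl_nil {I : Type} {S : I → StarSubalgebra ℂ D} : VL τ S [] := by
  refine ⟨by simp, ?_⟩
  intro p hp
  simp at hp

theorem vl_cons {I : Type} {S : I → StarSubalgebra ℂ D} {p : I × D} {l : List (I × D)} :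
    VL τ S (p :: l) ↔ (p.2 ∈ S p.1 ∧ τ p.2 = 0) ∧ (∀ q ∈ l.head?, p.1 ≠ q.1) ∧ VL τ S l := by
  unfold VL
  rw [List.map_cons, List.isChain_cons, List.head?_map]
  constructor
  · rintro ⟨⟨h1, h2⟩, h3⟩
    refine ⟨h3 p (List.mem_cons_self), ?_, h2, fun q hq => h3 q (List.mem_cons_of_mem _ hq)⟩
    intro q hq
    exact h1 q.1 (by rw [Option.mem_def] at hq ⊢; rw [hq]; rfl)
  · rintro ⟨h1, h2, h3, h4⟩
    refine ⟨⟨?_, h3⟩, ?_⟩
    · intro y hy
      rw [Option.mem_def, Option.map_eq_some_iff] at hy
      obtain ⟨q, hq, rfl⟩ := hy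
      exact h2 q hq
    · intro q hq
      rcases List.mem_cons.1 hq with rfl | hq
      · exact h1
      · exact h4 q hq

theorem wp_cons {J : Type} (p : J × D) (l : List (J × D)) : wprod (p :: l) = p.2 * wprod l := by
  simp [wprod]

theorem wp_mem {I : Type} {S : I → StarSubalgebra ℂ D} (Q : StarSubalgebra ℂ D) (hQ : ∀ i, S i ≤ Q)
    (l : List (I × D)) (hl : ∀ p ∈ l, p.2 ∈ S p.1) : wprod l ∈ Q := by
  induction l with
  | nil =>
    have e : wprod ([] : List (I × D)) = 1 := by simp [wprod]
    rw [e]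
    exact one_mem Q
  | cons p l ih =>
    rw [wp_cons]
    exact mul_mem (hQ _ (hl p List.mem_cons_self)) (ih fun q hq => hl q (List.mem_cons_of_mem _ hq))

end ASMM

open ASMM in
/-- (A9) assembly of free families. -/
theorem pASM : S_ASM := by
  classical
  intro D _ τ I S J Q hQ hF1 hF2
  set S' : Option {i // i ∉ J} → StarSubalgebra ℂ D := fun o => o.elim Q (fun i => S i) with hS'
  have key : ∀ l : List (I × D), VL τ S l → ∃ (r : List (J × D)) (m : List (Option {i // i ∉ J} × D)),
      VL τ (fun j : J => S j) r ∧ VL τ S' m ∧ wprod l = wprod r * wprod m ∧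
      (∀ q ∈ m.head?, q.1 ≠ none) ∧ (∀ q ∈ r.head?, ∃ q' ∈ l.head?, q'.1 = q.1) ∧
      (r = [] → ∀ q ∈ m.head?, ∀ i : {i // i ∉ J}, q.1 = some i → ∃ q' ∈ l.head?, q'.1 = i) ∧
      (l ≠ [] → r = [] → m ≠ []) := by
    intro l
    induction l with
    | nil =>
      intro _
      refine ⟨[], [], vl_nil, vl_nil, by simp [wprod], by simp, by simp, by simp, by simp⟩
    | cons p l ih =>
      intro hl
      rw [vl_cons] at hl
      obtain ⟨r, m, hr, hm, hprod, h1, h2, h3, h4⟩ := ih hl.2.2
      by_cases hp : p.1 ∈ J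
      · refine ⟨((⟨p.1, hp⟩ : J), p.2) :: r, m, ?_, hm, ?_, h1, ?_, ?_, ?_⟩
        · rw [vl_cons]
          refine ⟨hl.1, ?_, hr⟩
          intro q hq he
          obtain ⟨q', hq', he'⟩ := h2 q hq
          refine hl.2.1 q' hq' ?_
          rw [he', ← he]
        · rw [wp_cons, wp_cons, hprod, mul_assoc]
        · intro q hq
          simp only [List.head?_cons, Option.mem_def, Option.some.injEq] at hq
          subst hq
          exact ⟨p, by simp, rfl⟩
        · intro h
          simp at h
        · intro _ h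
          simp at h
      · -- a letter outside of `J`
        have hpS : p.2 ∈ S' (some ⟨p.1, hp⟩) ∧ τ p.2 = 0 := hl.1
        by_cases hr0 : r = []
        · refine ⟨[], (some ⟨p.1, hp⟩, p.2) :: m, vl_nil, ?_, ?_, by simp, by simp, ?_, by simp⟩
          · rw [vl_cons]
            refine ⟨hpS, ?_, hm⟩
            intro q hq he
            obtain ⟨q', hq', he'⟩ := h3 hr0 q hq ⟨p.1, hp⟩ he.symm
            exact hl.2.1 q' hq' he'.symm
          · rw [wp_cons, wp_cons, hprod, hr0]
            simp [wprod]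
          · intro _ q hq i hi
            simp only [List.head?_cons, Option.mem_def, Option.some.injEq] at hq
            subst hq
            simp only [Option.some.injEq] at hi
            exact ⟨p, by simp, by rw [← hi]⟩
        · refine ⟨[], (some ⟨p.1, hp⟩, p.2) :: (none, wprod r) :: m, vl_nil, ?_, ?_, by simp, by simp, ?_,
            by simp⟩
          · rw [vl_cons, vl_cons]
            refine ⟨hpS, by simp, ⟨?_, ?_⟩, ?_, hm⟩
            · exact wp_mem Q (fun j : J => hQ j j.2) r fun q hq => (hr.2 q hq).1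
            · exact hF2 r hr0 hr.1 hr.2
            · intro q hq
              exact (h1 q hq).symm
          · rw [wp_cons, wp_cons, wp_cons, hprod]
            simp [wprod]
          · intro _ q hq i hi
            simp only [List.head?_cons, Option.mem_def, Option.some.injEq] at hq
            subst hq
            simp only [Option.some.injEq] at hi
            exact ⟨p, by simp, by rw [← hi]⟩
  intro l hl hc hm
  obtain ⟨r, m, hr, hm', hprod, h1, h2, h3, h4⟩ := key l ⟨hc, hm⟩
  show τ (wprod l) = 0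
  rw [hprod]
  by_cases hr0 : r = []
  · have h5 := hF1 m (h4 hl hr0) hm'.1 hm'.2
    have h6 : wprod r * wprod m = (m.map Prod.snd).prod := by
      rw [hr0]
      simp [wprod]
    rw [h6]
    exact h5
  · have h7 : VL τ S' ((none, wprod r) :: m) := by
      rw [vl_cons]
      refine ⟨⟨?_, ?_⟩, ?_, hm'⟩
      · exact wp_mem Q (fun j : J => hQ j j.2) r fun q hq => (hr.2 q hq).1
      · exact hF2 r hr0 hr.1 hr.2
      · intro q hq
        exact (h1 q hq).symm
    have h5 := hF1 _ (by simp) h7.1 h7.2
    have h6 : wprod r * wprod m = (((none, wprod r) :: m : List (Option {i // i ∉ J} × D)).map Prod.snd).prod := by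
      simp [wprod]
    rw [h6]
    exact h5

end Pool.Agent.FT
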