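import Pool.Agent.Lib.FT.SpecA

/-!
# C44, A8: passing to the closure in one member of a free family (helper71)
-/

set_option autoImplicit false

namespace Pool.Agent.FT

namespace CLO

variable {D : Type} [CStarAlgebra D] {K : Type}

/-- products of lists with given indices -/
private def V (τ : D →ₗ[ℂ] ℂ) (Q : StarSubalgebra ℂ D) (S : K → StarSubalgebra ℂ D)
    (idx : List (Option K)) : Set D :=
  {x | ∃ l : List (Option K × D), l.map Prod.fst = idx ∧
    (∀ p ∈ l, p.2 ∈ p.1.elim Q S ∧ τ p.2 = 0) ∧ x = (l.map Prod.snd).prod}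

private theorem letter {τ : D →ₗ[ℂ] ℂ} (hτ : IsFTrace τ) {Q : StarSubalgebra ℂ D}
    {S : K → StarSubalgebra ℂ D} {o : Option K} {x : D}
    (hx : x ∈ o.elim Q.topologicalClosure S) (h0 : τ x = 0) :
    x ∈ closure {y : D | y ∈ o.elim Q S ∧ τ y = 0} := by
  cases o with
  | some k => exact subset_closure ⟨hx, h0⟩
  | none =>
    have hcont : Continuous fun y : D => y - τ y • (1 : D) := by
      have := hτ.state.continuous
      fun_prop
    have h1 : x ∈ closure (Q : Set D) := hx
    have h2 := map_mem_closure hcont h1 (t := {y : D | y ∈ (none : Option K).elim Q S ∧ τ y = 0})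
      (fun y hy => ⟨sub_mem hy (Q.smul_mem (one_mem _) _), by
        rw [map_sub, map_smul, hτ.state.1, smul_eq_mul, mul_one, sub_self]⟩)
    rwa [h0, zero_smul, sub_zero] at h2

private theorem word {τ : D →ₗ[ℂ] ℂ} (hτ : IsFTrace τ) {Q : StarSubalgebra ℂ D}
    {S : K → StarSubalgebra ℂ D} : ∀ l : List (Option K × D),
    (∀ p ∈ l, p.2 ∈ p.1.elim Q.topologicalClosure S ∧ τ p.2 = 0) →
    (l.map Prod.snd).prod ∈ closure (V τ Q S (l.map Prod.fst))
  | [], _ => subset_closure ⟨[], rfl, by simp, rfl⟩
  | (o, x) :: l, h => by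
    have h1 := h (o, x) List.mem_cons_self
    have h2 := word hτ l (fun p hp => h p (List.mem_cons_of_mem _ hp))
    rw [List.map_cons, List.map_cons, List.prod_cons]
    refine map_mem_closure₂ continuous_mul (letter hτ h1.1 h1.2) h2 ?_
    rintro y hy z ⟨m, hm1, hm2, rfl⟩
    refine ⟨(o, y) :: m, by rw [List.map_cons, hm1], ?_, by rw [List.map_cons, List.prod_cons]⟩
    intro p hp
    rcases List.mem_cons.1 hp with rfl | hp
    · exact hy
    · exact hm2 p hp

end CLO

theorem pCLO : S_CLO := by
  intro D _ τ hτ K Q S hf l hne hc hm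
  have h1 := CLO.word hτ l hm
  have hcl : IsClosed {x : D | τ x = 0} := isClosed_eq hτ.state.continuous continuous_const
  refine closure_minimal ?_ hcl h1
  rintro x ⟨m, hm1, hm2, rfl⟩
  refine hf m ?_ ?_ hm2
  · rintro rfl
    simp only [List.map_nil] at hm1
    exact hne (List.map_eq_nil_iff.1 hm1.symm)
  · rw [hm1]
    exact hc

end Pool.Agent.FT
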