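import Pool.Agent.Lib.FT.A.Img

/-!
# C44, A13: conjugation of the tail (helper71)
-/

set_option autoImplicit false

namespace Pool.Agent.FT

theorem pCONJ (hG : S_GRP0) (hC : S_CLO) (hA : S_ASM) : S_CONJ := by
  intro d D _ τ ι v h M w hw h1 h2
  let F : Option ℕ → StarSubalgebra ℂ D :=
    fun o => o.elim ι.range (fun k => StarAlgebra.adjoin ℂ {v k})
  have hF : IsFree τ F := h.free
  let ι' : C(Fin d → unitInterval, ℂ) →⋆ₐ[ℂ] D := (Rei.Ad w h1 h2).comp ι
  have hι' : ∀ f, ι' f = star w * ι f * w := fun f => rfl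
  have hinv : ∀ x, τ (star w * x * w) = τ x := by
    intro x
    rw [h.tr.trace, ← mul_assoc, h2, one_mul]
  let v' : ℕ → D := fun k => if k < M then v k else star w * v k * w
  let F' : Option ℕ → StarSubalgebra ℂ D :=
    fun o => o.elim ι'.range (fun k => StarAlgebra.adjoin ℂ {v' k})
  let J : Set (Option ℕ) := {o | ∀ k, o = some k → M ≤ k}
  have h3 := hC D τ h.tr {i // i ∉ J} (⨆ j ∈ J, F j) (fun i => F i)
    (hG D τ h.tr (Option ℕ) F hF J)
  have hGM : GM ι v M ≤ (⨆ j ∈ J, F j).topologicalClosure := by
    refine StarSubalgebra.topologicalClosure_mono (sup_le ?_ ?_)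
    · have : F none ≤ ⨆ j ∈ J, F j := le_iSup₂_of_le (f := fun j (_ : j ∈ J) => F j) none
        (by intro k hk; cases hk) le_rfl
      exact this
    · refine StarAlgebra.adjoin_le ?_
      rintro x ⟨k, hk, rfl⟩
      have : F (some k) ≤ ⨆ j ∈ J, F j := le_iSup₂_of_le (f := fun j (_ : j ∈ J) => F j) (some k)
        (by intro k' hk'; cases hk'; exact hk) le_rfl
      exact this (StarAlgebra.subset_adjoin ℂ {v k} rfl)
  have hιM : ι.range ≤ GM ι v M := le_sup_left.trans (StarSubalgebra.le_topologicalClosure _)
  have hvM : ∀ k, M ≤ k → v k ∈ GM ι v M := fun k hk =>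
    (le_sup_right.trans (StarSubalgebra.le_topologicalClosure _))
      (StarAlgebra.subset_adjoin ℂ _ ⟨k, hk, rfl⟩)
  have hvv : ∀ k, M ≤ k → v' k = star w * v k * w := fun k hk => if_neg (not_lt.2 hk)
  have hvl : ∀ k, k < M → v' k = v k := fun k hk => if_pos hk
  have hfree : IsFree τ F' := by
    refine hA D τ (Option ℕ) F' J (GM ι v M) ?_ ?_ ?_
    · intro j hj
      cases j with
      | none =>
        rintro x ⟨f, rfl⟩
        change star w * ι f * w ∈ GM ι v M
        exact mul_mem (mul_mem (star_mem hw) (hιM ⟨f, rfl⟩)) hw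
      | some k =>
        refine StarAlgebra.adjoin_le ?_
        rintro x rfl
        have hk := hj k rfl
        change v' k ∈ GM ι v M
        rw [hvv k hk]
        exact mul_mem (mul_mem (star_mem hw) (hvM k hk)) hw
    · refine Rei.reindex h3 id Function.injective_id ?_
      rintro (_ | ⟨i, hi⟩)
      · exact hGM
      · cases i with
        | none => exact absurd (fun k hk => by cases hk) hi
        | some k =>
          have hk : k < M := by
            by_contra hk
            exact hi fun k' hk' => by cases hk'; exact not_lt.1 hk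
          change StarAlgebra.adjoin ℂ {v' k} ≤ StarAlgebra.adjoin ℂ {v k}
          rw [hvl k hk]
    · refine Rei.reindex (Rei.image hF (Rei.Ad w h1 h2) hinv) (fun j : J => (j : Option ℕ))
        Subtype.val_injective ?_
      rintro ⟨i, hi⟩
      cases i with
      | none =>
        rintro x ⟨f, rfl⟩
        exact ⟨ι f, ⟨f, rfl⟩, rfl⟩
      | some k =>
        refine StarAlgebra.adjoin_le ?_
        rintro x rfl
        have hk := hi k rfl
        exact ⟨v k, StarAlgebra.subset_adjoin ℂ {v k} rfl, (hvv k hk).symm⟩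
  refine ⟨ι', hι', h.tr, ?_, ?_, ?_, ?_, hfree⟩
  · intro f
    rw [hι', hinv, h.leb]
  · intro k
    change star (v' k) = v' k
    rcases lt_or_ge k M with hk | hk
    · rw [hvl k hk, h.sa]
    · rw [hvv k hk, star_mul, star_mul, star_star, h.sa, mul_assoc]
  · intro k
    change v' k * v' k = 1
    rcases lt_or_ge k M with hk | hk
    · rw [hvl k hk, h.sq]
    · rw [hvv k hk]
      have : star w * v k * w * (star w * v k * w) = star w * v k * (w * star w) * v k * w := by
        simp only [mul_assoc]
      rw [this, h2, mul_one, mul_assoc (star w), h.sq, mul_one, h1]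
  · intro k
    change τ (v' k) = 0
    rcases lt_or_ge k M with hk | hk
    · rw [hvl k hk, h.tz]
    · rw [hvv k hk, hinv, h.tz]

end Pool.Agent.FT
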