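import Pool.Agent.Lib.FT.SpecA

set_option autoImplicit false

noncomputable section

namespace Pool.Agent.FT

namespace DECM

variable {D : Type} [CStarAlgebra D] (τ : D →ₗ[ℂ] ℂ) (P : StarSubalgebra ℂ D) (w : ℕ → D)

/-- The span of all words. -/
def N : Submodule ℂ D := Submodule.span ℂ {x | ∃ l, IsWord τ P w l ∧ x = wprod l}

variable {τ P w}

theorem isWord_nil : IsWord τ P w [] := by
  refine ⟨by simp, ?_⟩
  intro p hp
  simp at hp

theorem isWord_cons {p : Option ℕ × D} {l : List (Option ℕ × D)} :
    IsWord τ P w (p :: l) ↔ ((p.1 = none → p.2 ∈ P ∧ τ p.2 = 0) ∧ (∀ j, p.1 = some j → p.2 = w j)) ∧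
      (∀ q ∈ l.head?, p.1 ≠ q.1) ∧ IsWord τ P w l := by
  unfold IsWord
  rw [List.map_cons, List.isChain_cons, List.head?_map]
  constructor
  · rintro ⟨⟨h1, h2⟩, h3⟩
    refine ⟨h3 p (List.mem_cons_self), ?_, h2, fun q hq => h3 q (List.mem_cons_of_mem _ hq)⟩
    intro q hq
    exact h1 q.1 (by rw [Option.mem_def] at hq ⊢; rw [hq]; rfl)
  · rintro ⟨h1, h2, h3, h4⟩
    refine ⟨⟨?_, h3⟩, ?_⟩
    · intro y hy
      rw [Option.mem_def, Option.map_eq_some_iff] at hy
      obtain ⟨q, hq, rfl⟩ := hy
      exact h2 q hq
    · intro q hq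
      rcases List.mem_cons.1 hq with rfl | hq
      · exact h1
      · exact h4 q hq

theorem word_mem {l : List (Option ℕ × D)} (h : IsWord τ P w l) : wprod l ∈ N τ P w :=
  Submodule.subset_span ⟨l, h, rfl⟩

theorem wprod_cons {J : Type} (p : J × D) (l : List (J × D)) : wprod (p :: l) = p.2 * wprod l := by
  simp [wprod]

/-- Left multiplication by an element of `P`. -/
theorem mulP (h1 : τ 1 = 1) (x : D) (hx : x ∈ P) (m : D) (hm : m ∈ N τ P w) : x * m ∈ N τ P w := by
  induction hm using Submodule.span_induction with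
  | zero => rw [mul_zero]; exact Submodule.zero_mem _
  | add a b _ _ ha hb => rw [mul_add]; exact Submodule.add_mem _ ha hb
  | smul c a _ ha => rw [mul_smul_comm]; exact Submodule.smul_mem _ _ ha
  | mem m hm =>
    obtain ⟨l, hl, rfl⟩ := hm
    -- a centred letter in front
    have key : ∀ (y : D) (l : List (Option ℕ × D)), y ∈ P → IsWord τ P w l →
        (∀ q ∈ l.head?, none ≠ q.1) → y * wprod l ∈ N τ P w := by
      intro y l hy hl hh
      have e : y * wprod l = τ y • wprod l + wprod ((none, y - τ y • 1) :: l) := by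
        rw [wprod_cons]
        simp only [sub_mul, smul_mul_assoc, one_mul]
        abel
      rw [e]
      refine Submodule.add_mem _ (Submodule.smul_mem _ _ (word_mem hl)) (word_mem ?_)
      rw [isWord_cons]
      refine ⟨⟨fun _ => ⟨sub_mem hy (P.smul_mem (one_mem P) _), ?_⟩, ?_⟩, hh, hl⟩
      · rw [map_sub, map_smul, h1, smul_eq_mul, mul_one, sub_self]
      · intro j hj
        simp at hj
    cases l with
    | nil => exact key x [] hx hl (by simp)
    | cons p l =>
      obtain ⟨o, a⟩ := p
      cases o with
      | some j => exact key x _ hx hl (by simp)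
      | none =>
        rw [wprod_cons, ← mul_assoc]
        rw [isWord_cons] at hl
        refine key (x * a) l (mul_mem hx (hl.1.1 rfl).1) hl.2.2 hl.2.1

/-- Left multiplication by a symmetry. -/
theorem mulW (hsq : ∀ j, w j * w j = 1) (j : ℕ) (m : D) (hm : m ∈ N τ P w) : w j * m ∈ N τ P w := by
  induction hm using Submodule.span_induction with
  | zero => rw [mul_zero]; exact Submodule.zero_mem _
  | add a b _ _ ha hb => rw [mul_add]; exact Submodule.add_mem _ ha hb
  | smul c a _ ha => rw [mul_smul_comm]; exact Submodule.smul_mem _ _ ha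
  | mem m hm =>
    obtain ⟨l, hl, rfl⟩ := hm
    have key : ∀ l : List (Option ℕ × D), IsWord τ P w l →
        (∀ q ∈ l.head?, some j ≠ q.1) → w j * wprod l ∈ N τ P w := by
      intro l hl hh
      have e : w j * wprod l = wprod ((some j, w j) :: l) := by rw [wprod_cons]
      rw [e]
      refine word_mem (isWord_cons.2 ⟨⟨fun h => ?_, ?_⟩, hh, hl⟩)
      · simp at h
      · intro i hi
        simp only [Option.some.injEq] at hi
        rw [hi]
    cases l with
    | nil => exact key [] hl (by simp)
    | cons p l =>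
      obtain ⟨o, a⟩ := p
      cases o with
      | none => exact key _ hl (by simp)
      | some i =>
        by_cases hij : j = i
        · subst hij
          rw [isWord_cons] at hl
          have ha : a = w j := hl.1.2 j rfl
          rw [wprod_cons, ← mul_assoc, ha, hsq, one_mul]
          exact word_mem hl.2.2
        · exact key _ hl (by simpa using hij)

theorem N_le : N τ P w ≤ WP τ P w ⊔ Ww τ P w := by
  unfold N
  rw [Submodule.span_le]
  rintro x ⟨l, hl, rfl⟩
  cases l with
  | nil =>
    refine Submodule.mem_sup_left (Submodule.subset_span ?_)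
    left
    rfl
  | cons p l =>
    obtain ⟨o, a⟩ := p
    cases o with
    | none =>
      refine Submodule.mem_sup_left (Submodule.subset_span ?_)
      right
      exact ⟨a, l, hl, wprod_cons _ _⟩
    | some i =>
      refine Submodule.mem_sup_right (Submodule.subset_span ?_)
      have ha : a = w i := (isWord_cons.1 hl).1.2 i rfl
      subst ha
      exact ⟨i, l, hl, wprod_cons _ _⟩

end DECM

open DECM in
/-- (A2) decomposition into words. -/
theorem pDEC : S_DEC := by
  intro D _ τ P w hτ hS y hy
  have h1 : τ 1 = 1 := hτ.state.1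
  have key : (∀ m ∈ N τ P w, y * m ∈ N τ P w) ∧ (∀ m ∈ N τ P w, star y * m ∈ N τ P w) := by
    unfold WA at hy
    induction hy using StarAlgebra.adjoin_induction with
    | mem x hx =>
      rcases hx with hx | ⟨j, rfl⟩
      · exact ⟨fun m hm => mulP h1 x hx m hm, fun m hm => mulP h1 (star x) (star_mem hx) m hm⟩
      · refine ⟨fun m hm => mulW hS.sq j m hm, fun m hm => ?_⟩
        rw [hS.sa]
        exact mulW hS.sq j m hm
    | algebraMap r =>
      refine ⟨fun m hm => ?_, fun m hm => ?_⟩
      · rw [Algebra.algebraMap_eq_smul_one, smul_mul_assoc, one_mul]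
        exact Submodule.smul_mem _ _ hm
      · rw [Algebra.algebraMap_eq_smul_one, star_smul, star_one, smul_mul_assoc, one_mul]
        exact Submodule.smul_mem _ _ hm
    | add a b _ _ ha hb =>
      refine ⟨fun m hm => ?_, fun m hm => ?_⟩
      · rw [add_mul]
        exact Submodule.add_mem _ (ha.1 m hm) (hb.1 m hm)
      · rw [star_add, add_mul]
        exact Submodule.add_mem _ (ha.2 m hm) (hb.2 m hm)
    | mul a b _ _ ha hb =>
      refine ⟨fun m hm => ?_, fun m hm => ?_⟩
      · rw [mul_assoc]
        exact ha.1 _ (hb.1 m hm)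
      · rw [star_mul, mul_assoc]
        exact hb.2 _ (ha.2 m hm)
    | star a _ ha =>
      refine ⟨ha.2, ?_⟩
      rw [star_star]
      exact ha.1
  have h2 : y ∈ N τ P w := by
    have h3 := key.1 1 (by
      have := word_mem (τ := τ) (P := P) (w := w) (l := []) isWord_nil
      simpa [wprod] using this)
    rwa [mul_one] at h3
  obtain ⟨e, he, f, hf, hef⟩ := Submodule.mem_sup.1 (N_le h2)
  exact ⟨e, he, f, hf, hef.symm⟩

end Pool.Agent.FT
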