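import Pool.Agent.Lib.FT.SpecA

set_option autoImplicit false

noncomputable section

namespace Pool.Agent.FT

namespace FTM

variable {D : Type} [CStarAlgebra D] {τ : D →ₗ[ℂ] ℂ} {P : StarSubalgebra ℂ D} {w : ℕ → D}

theorem n2_eq_of {x y : D} (h : star x * x = star y * y) : n2 τ x = n2 τ y := by
  unfold n2
  rw [h]

theorem bound (hs : IsState τ) (a b x : D) : ‖τ (star a * x * b)‖ ≤ ‖x‖ * (n2 τ a * n2 τ b) := by
  rw [mul_assoc]
  refine (hs.cs a (x * b)).trans ?_
  have h := hs.n2_mul_le x b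
  have h0 := n2_nonneg τ a
  calc n2 τ a * n2 τ (x * b) ≤ n2 τ a * (‖x‖ * n2 τ b) := mul_le_mul_of_nonneg_left h h0
    _ = ‖x‖ * (n2 τ a * n2 τ b) := by ring

/-- The estimates for the parts of `α y`. -/
theorem parts (hτ : IsFTrace τ) (hORT : (∀ e ∈ WP τ P w, ∀ g ∈ Ww τ P w, τ (star e * g) = 0) ∧
    (∀ x ∈ P, ∀ g ∈ Ww τ P w, ∀ g' ∈ Ww τ P w, τ (star g * x * g') = τ x * τ (star g * g')))
    {α : D} (hα : α ∈ P) (hsa : star α = α) (hn : ‖α‖ ≤ 1) {y e f : D} (he : e ∈ WP τ P w)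
    (hf : f ∈ Ww τ P w) (hy : α * y = e + f) :
    n2 τ e ≤ n2 τ y ∧ n2 τ f ≤ n2 τ α * n2 τ y := by
  have hs := hτ.state
  have h1 : τ (star e * f) = 0 := hORT.1 e he f hf
  have h2 : τ (star f * e) = 0 := by
    rw [← hs.conj_form, h1, map_zero]
  have hαy : n2 τ (α * y) ≤ n2 τ y := by
    refine (hs.n2_mul_le α y).trans ?_
    have := n2_nonneg τ y
    nlinarith
  have hy0 := n2_nonneg τ y
  have ha0 := n2_nonneg τ α
  have he0 := n2_nonneg τ e
  have hf0 := n2_nonneg τ f
  refine ⟨?_, ?_⟩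
  · -- orthogonality
    have h3 : n2 τ (α * y) ^ 2 = n2 τ e ^ 2 + n2 τ f ^ 2 := by
      rw [hs.n2_sq, hs.n2_sq, hs.n2_sq, hy]
      have e1 : star (e + f) * (e + f) = star e * e + star e * f + (star f * e + star f * f) := by
        rw [star_add, add_mul, mul_add, mul_add]
      rw [e1, map_add, map_add, map_add, h1, h2]
      simp
    have h4 : n2 τ e ^ 2 ≤ n2 τ (α * y) ^ 2 := by
      rw [h3]
      nlinarith
    have h5 : n2 τ e ≤ n2 τ (α * y) := (sq_le_sq₀ he0 (n2_nonneg _ _)).1 h4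
    exact h5.trans hαy
  · have h3 : n2 τ f ^ 2 = (τ (star (α * f) * y)).re := by
      rw [hs.n2_sq]
      have e1 : star (α * f) * y = star f * e + star f * f := by
        rw [star_mul, hsa, mul_assoc, hy, mul_add]
      rw [e1, map_add, h2, zero_add]
    have h4 : n2 τ (α * f) = n2 τ α * n2 τ f := by
      have e1 : n2 τ (α * f) ^ 2 = (n2 τ α * n2 τ f) ^ 2 := by
        rw [hs.n2_sq, mul_pow]
        have e2 : star (α * f) * (α * f) = star f * (α * α) * f := by
          rw [star_mul, hsa]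
          simp only [mul_assoc]
        rw [e2, hORT.2 (α * α) (mul_mem hα hα) f hf f hf]
        have e3 : τ (α * α) = ((n2 τ α ^ 2 : ℝ) : ℂ) := by
          rw [hs.n2_sq', hsa]
        rw [e3, ← hs.n2_sq' f, ← Complex.ofReal_mul, Complex.ofReal_re]
      exact (pow_left_inj₀ (n2_nonneg _ _) (mul_nonneg ha0 hf0) two_ne_zero).mp e1
    have h5 : n2 τ f ^ 2 ≤ (n2 τ α * n2 τ f) * n2 τ y := by
      rw [h3, ← h4]
      exact (Complex.re_le_norm _).trans (hs.cs _ _)
    rcases eq_or_lt_of_le hf0 with h6 | h6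
    · rw [← h6]
      exact mul_nonneg ha0 hy0
    · have h7 : n2 τ f * n2 τ f ≤ (n2 τ α * n2 τ y) * n2 τ f := by nlinarith
      exact le_of_mul_le_mul_right h7 h6

end FTM

open FTM in
/-- (A4) Lemma FT. -/
theorem pFT (hNL : S_NL) (hDEC : S_DEC) (hORT : S_ORT) : S_FT := by
  intro D _ τ P w hτ hS α hα hsa hn x hx i j
  obtain ⟨o1, o2, o3, o4⟩ := hORT D τ P w hτ hS
  have hs := hτ.state
  have hPW : ∀ a ∈ P, a ∈ WA P w := fun a ha => StarAlgebra.subset_adjoin ℂ _ (Or.inl ha)
  have hwW : ∀ j, w j ∈ WA P w := fun j => StarAlgebra.subset_adjoin ℂ _ (Or.inr ⟨j, rfl⟩)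
  set κ : ℂ := if i = j then τ x else 0 with hκ
  have hκn : ‖κ‖ ≤ ‖x‖ := by
    rw [hκ]
    split_ifs
    · exact hs.norm_le x
    · rw [norm_zero]
      exact norm_nonneg _
  have hc : α * w i * x * w j * α - κ • (α * α) ∈ WA P w :=
    sub_mem (mul_mem (mul_mem (mul_mem (mul_mem (hPW α hα) (hwW i)) (hPW x hx)) (hwW j)) (hPW α hα))
      ((WA P w).smul_mem (mul_mem (hPW α hα) (hPW α hα)) κ)
  refine hNL D τ hτ (WA P w) _ _ (mul_nonneg (mul_nonneg (by norm_num) (norm_nonneg _)) (n2_nonneg _ _))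
    ((WA P w).le_topologicalClosure hc) ?_
  intro y hy z hz
  obtain ⟨e, he, f, hf, hef⟩ := hDEC D τ P w hτ hS (α * y) (mul_mem (hPW α hα) hy)
  obtain ⟨e', he', f', hf', hef'⟩ := hDEC D τ P w hτ hS (α * z) (mul_mem (hPW α hα) hz)
  obtain ⟨b1, b2⟩ := parts hτ ⟨o1, o2⟩ hα hsa hn he hf hef
  obtain ⟨b1', b2'⟩ := parts hτ ⟨o1, o2⟩ hα hsa hn he' hf' hef'
  have hwn : ∀ (k : ℕ) (u : D), n2 τ (w k * u) = n2 τ u := by
    intro k u
    apply n2_eq_of
    rw [star_mul, hS.sa, mul_assoc, ← mul_assoc (w k) (w k), hS.sq, one_mul]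
  -- the decomposition of the form
  have hmain : star y * (α * w i * x * w j * α - κ • (α * α)) * z =
      star (w i * e) * x * (w j * e') + star (w i * e) * x * (w j * f') +
        star (w i * f) * x * (w j * (α * z)) -
        κ • (star e * e' + star e * f' + star f * e' + star f * f') := by
    have e1 : star y * (α * w i * x * w j * α - κ • (α * α)) * z =
        star (w i * (α * y)) * x * (w j * (α * z)) - κ • (star (α * y) * (α * z)) := by
      simp only [mul_sub, sub_mul, mul_smul_comm, smul_mul_assoc, star_mul, hS.sa, hsa, mul_assoc]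
    have e2 : star (w i * (α * y)) * x * (w j * (α * z)) =
        star (w i * e) * x * (w j * e') + star (w i * e) * x * (w j * f') +
        star (w i * f) * x * (w j * (α * z)) := by
      rw [hef]
      have e3 : star (w i * (e + f)) * x * (w j * (α * z)) =
          star (w i * e) * x * (w j * (α * z)) + star (w i * f) * x * (w j * (α * z)) := by
        rw [mul_add, star_add, add_mul, add_mul]
      have e4 : star (w i * e) * x * (w j * (α * z)) =
          star (w i * e) * x * (w j * e') + star (w i * e) * x * (w j * f') := by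
        rw [hef', mul_add, mul_add]
      rw [e3, e4]
    have e5 : star (α * y) * (α * z) = star e * e' + star e * f' + star f * e' + star f * f' := by
      rw [hef, hef', star_add, add_mul, mul_add, mul_add]
      abel
    rw [e1, e2, e5]
  have hz1 : τ (star e * f') = 0 := o1 e he f' hf'
  have hz2 : τ (star f * e') = 0 := by
    rw [← hs.conj_form, o1 e' he' f hf, map_zero]
  have hee : τ (star (w i * e) * x * (w j * e')) = κ * τ (star e * e') := by
    rw [o2 x hx (w i * e) (o3 i e he) (w j * e') (o3 j e' he'), o4 i j e he e' he', hκ]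
    split_ifs
    · rfl
    · rw [mul_zero, zero_mul]
  have hval : τ (star y * (α * w i * x * w j * α - κ • (α * α)) * z) =
      τ (star (w i * e) * x * (w j * f')) + τ (star (w i * f) * x * (w j * (α * z))) -
        κ * τ (star f * f') := by
    rw [hmain, map_sub, map_add, map_add, map_smul, map_add, map_add, map_add, hee, hz1, hz2, smul_eq_mul]
    ring
  rw [hval]
  have hy0 := n2_nonneg τ y
  have hz0 := n2_nonneg τ z
  have ha0 := n2_nonneg τ α
  have he0 := n2_nonneg τ e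
  have hf0 := n2_nonneg τ f
  have he0' := n2_nonneg τ e'
  have hf0' := n2_nonneg τ f'
  have hx0 := norm_nonneg x
  have hαz : n2 τ (α * z) ≤ n2 τ z := by
    refine (hs.n2_mul_le α z).trans ?_
    nlinarith
  have ha1 : n2 τ α ≤ 1 := (hs.n2_le_norm α).trans hn
  have t1 : ‖τ (star (w i * e) * x * (w j * f'))‖ ≤ ‖x‖ * (n2 τ α * n2 τ y * n2 τ z) := by
    refine (bound hs _ _ _).trans ?_
    rw [hwn, hwn]
    refine mul_le_mul_of_nonneg_left ?_ hx0
    calc n2 τ e * n2 τ f' ≤ n2 τ y * (n2 τ α * n2 τ z) := mul_le_mul b1 b2' hf0' hy0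
      _ = n2 τ α * n2 τ y * n2 τ z := by ring
  have t2 : ‖τ (star (w i * f) * x * (w j * (α * z)))‖ ≤ ‖x‖ * (n2 τ α * n2 τ y * n2 τ z) := by
    refine (bound hs _ _ _).trans ?_
    rw [hwn, hwn]
    refine mul_le_mul_of_nonneg_left ?_ hx0
    exact mul_le_mul b2 hαz (n2_nonneg _ _) (mul_nonneg ha0 hy0)
  have t3 : ‖κ * τ (star f * f')‖ ≤ ‖x‖ * (n2 τ α * n2 τ y * n2 τ z) := by
    rw [norm_mul]
    refine mul_le_mul hκn ?_ (norm_nonneg _) hx0
    refine (hs.cs _ _).trans ?_
    calc n2 τ f * n2 τ f' ≤ (n2 τ α * n2 τ y) * (n2 τ α * n2 τ z) :=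
          mul_le_mul b2 b2' hf0' (mul_nonneg ha0 hy0)
      _ ≤ (n2 τ α * n2 τ y) * (1 * n2 τ z) :=
          mul_le_mul_of_nonneg_left (mul_le_mul_of_nonneg_right ha1 hz0) (mul_nonneg ha0 hy0)
      _ = n2 τ α * n2 τ y * n2 τ z := by ring
  calc ‖τ (star (w i * e) * x * (w j * f')) + τ (star (w i * f) * x * (w j * (α * z))) -
        κ * τ (star f * f')‖
      ≤ ‖τ (star (w i * e) * x * (w j * f')) + τ (star (w i * f) * x * (w j * (α * z)))‖ +
        ‖κ * τ (star f * f')‖ := norm_sub_le _ _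
    _ ≤ ‖τ (star (w i * e) * x * (w j * f'))‖ + ‖τ (star (w i * f) * x * (w j * (α * z)))‖ +
        ‖κ * τ (star f * f')‖ := by
        have := norm_add_le (τ (star (w i * e) * x * (w j * f'))) (τ (star (w i * f) * x * (w j * (α * z))))
        linarith
    _ ≤ 3 * ‖x‖ * n2 τ α * n2 τ y * n2 τ z := by
        nlinarith [t1, t2, t3]

end Pool.Agent.FT
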