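import Pool.Agent.Lib.FT.SpecA

/-!
# C44, module A/G: Lemma G (bilinear form)
-/

set_option autoImplicit false

open MeasureTheory

namespace Pool.Agent.FT

theorem pG (hFT : S_FT) : S_G := by
  intro D _ τ P w hτ hw α hα hαs hα1 n L M p p' b b' κ hp hpM hp' hpM' hb hb1 hb' hb1' hκ i j
  classical
  have hL : star (∑ l, p l * w (κ i l) * α * b i l) =
      ∑ l, star (b i l) * (α * (w (κ i l) * star (p l))) := by
    rw [star_sum]
    refine Finset.sum_congr rfl fun l _ => ?_
    rw [star_mul, star_mul, star_mul, hαs, hw.sa]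
  have hR : (if i = j then ∑ l, τ (star (p l) * p' l) • (star (b i l) * (α * α) * b' i l) else 0)
      = ∑ l, ∑ l', star (b i l) * ((if κ i l = κ j l' then τ (star (p l) * p' l') else 0) •
          (α * α)) * b' j l' := by
    split_ifs with hij
    · subst hij
      refine Finset.sum_congr rfl fun l _ => ?_
      rw [Finset.sum_eq_single l]
      · rw [if_pos rfl, mul_smul_comm, smul_mul_assoc]
      · intro l' _ hl'
        rw [if_neg fun h => hl' (hκ _ _ _ _ h).2.symm, zero_smul, mul_zero, zero_mul]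
      · intro h
        exact absurd (Finset.mem_univ _) h
    · symm
      refine Finset.sum_eq_zero fun l _ => Finset.sum_eq_zero fun l' _ => ?_
      rw [if_neg fun h => hij (hκ _ _ _ _ h).1, zero_smul, mul_zero, zero_mul]
  have hP : star (∑ l, p l * w (κ i l) * α * b i l) * (∑ l, p' l * w (κ j l) * α * b' j l)
      = ∑ l, ∑ l', star (b i l) * (α * w (κ i l) * (star (p l) * p' l') * w (κ j l') * α) *
          b' j l' := by
    rw [hL, Finset.sum_mul]
    refine Finset.sum_congr rfl fun l _ => ?_
    rw [Finset.mul_sum]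
    refine Finset.sum_congr rfl fun l' _ => ?_
    simp only [mul_assoc]
  have hM0 : L ≠ 0 → 0 ≤ M := fun h0 =>
    (norm_nonneg _).trans (hpM ⟨0, Nat.pos_of_ne_zero h0⟩)
  have hterm : ∀ l l', ‖star (b i l) * (α * w (κ i l) * (star (p l) * p' l') * w (κ j l') * α) *
      b' j l' - star (b i l) * ((if κ i l = κ j l' then τ (star (p l) * p' l') else 0) •
          (α * α)) * b' j l'‖ ≤ 3 * M ^ 2 * n2 τ α := by
    intro l l'
    have h1 := hFT D τ P w hτ hw α hα hαs hα1 (star (p l) * p' l')
      (mul_mem (star_mem (hp l)) (hp' l')) (κ i l) (κ j l')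
    have h2 : ‖star (p l) * p' l'‖ ≤ M ^ 2 := by
      refine (norm_mul_le _ _).trans ?_
      rw [norm_star, sq]
      exact mul_le_mul (hpM l) (hpM' l') (norm_nonneg _) ((norm_nonneg _).trans (hpM l))
    rw [← sub_mul, ← mul_sub]
    have h0 : 0 ≤ n2 τ α := n2_nonneg _ _
    calc ‖star (b i l) * (α * w (κ i l) * (star (p l) * p' l') * w (κ j l') * α -
            (if κ i l = κ j l' then τ (star (p l) * p' l') else 0) • (α * α)) * b' j l'‖
        ≤ ‖star (b i l)‖ * ‖α * w (κ i l) * (star (p l) * p' l') * w (κ j l') * α -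
            (if κ i l = κ j l' then τ (star (p l) * p' l') else 0) • (α * α)‖ * ‖b' j l'‖ := by
          refine (norm_mul_le _ _).trans ?_
          gcongr
          exact norm_mul_le _ _
      _ ≤ 1 * (3 * M ^ 2 * n2 τ α) * 1 := by
          have h3 : ‖star (b i l)‖ ≤ 1 := by rw [norm_star]; exact hb1 i l
          have h4 := hb1' j l'
          have h5 : 3 * ‖star (p l) * p' l'‖ * n2 τ α ≤ 3 * M ^ 2 * n2 τ α := by gcongr
          exact mul_le_mul (mul_le_mul h3 (h1.trans h5) (norm_nonneg _) zero_le_one) h4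
            (norm_nonneg _) (by positivity)
      _ = 3 * M ^ 2 * n2 τ α := by ring
  rw [hP, hR, ← Finset.sum_sub_distrib]
  calc ‖∑ l, ((∑ l', star (b i l) * (α * w (κ i l) * (star (p l) * p' l') * w (κ j l') * α) *
            b' j l') - ∑ l', star (b i l) * ((if κ i l = κ j l' then τ (star (p l) * p' l') else 0) •
          (α * α)) * b' j l')‖
      ≤ ∑ l : Fin L, ∑ l' : Fin L, 3 * M ^ 2 * n2 τ α := by
        refine (norm_sum_le _ _).trans (Finset.sum_le_sum fun l _ => ?_)
        rw [← Finset.sum_sub_distrib]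
        exact (norm_sum_le _ _).trans (Finset.sum_le_sum fun l' _ => hterm l l')
    _ = 3 * (L : ℝ) ^ 2 * M ^ 2 * n2 τ α := by
        simp only [Finset.sum_const, Finset.card_univ, Fintype.card_fin, nsmul_eq_mul]
        ring

end Pool.Agent.FT
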