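import Pool.Agent.Lib.FT.SpecA

set_option autoImplicit false

noncomputable section

namespace Pool.Agent.FT

namespace GRPM

variable {D : Type} [CStarAlgebra D] {τ : D →ₗ[ℂ] ℂ}

/-- Valid lists. -/
def VL {I : Type} (τ : D →ₗ[ℂ] ℂ) (S : I → StarSubalgebra ℂ D) (l : List (I × D)) : Prop :=
  (l.map Prod.fst).IsChain (· ≠ ·) ∧ ∀ p ∈ l, p.2 ∈ S p.1 ∧ τ p.2 = 0

theorem vl_nil {I : Type} {S : I → StarSubalgebra ℂ D} : VL τ S [] := by
  refine ⟨by simp, ?_⟩
  intro p hp
  simp at hp

theorem vl_cons {I : Type} {S : I → StarSubalgebra ℂ D} {p : I × D} {l : List (I × D)} :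
    VL τ S (p :: l) ↔ (p.2 ∈ S p.1 ∧ τ p.2 = 0) ∧ (∀ q ∈ l.head?, p.1 ≠ q.1) ∧ VL τ S l := by
  unfold VL
  rw [List.map_cons, List.isChain_cons, List.head?_map]
  constructor
  · rintro ⟨⟨h1, h2⟩, h3⟩
    refine ⟨h3 p (List.mem_cons_self), ?_, h2, fun q hq => h3 q (List.mem_cons_of_mem _ hq)⟩
    intro q hq
    exact h1 q.1 (by rw [Option.mem_def] at hq ⊢; rw [hq]; rfl)
  · rintro ⟨h1, h2, h3, h4⟩
    refine ⟨⟨?_, h3⟩, ?_⟩
    · intro y hy
      rw [Option.mem_def, Option.map_eq_some_iff] at hy
      obtain ⟨q, hq, rfl⟩ := hy
      exact h2 q hq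
    · intro q hq
      rcases List.mem_cons.1 hq with rfl | hq
      · exact h1
      · exact h4 q hq

theorem vl_append {I : Type} {S : I → StarSubalgebra ℂ D} {l l' : List (I × D)} (h : VL τ S l) (h' : VL τ S l')
    (hh : ∀ p ∈ l.getLast?, ∀ q ∈ l'.head?, p.1 ≠ q.1) : VL τ S (l ++ l') := by
  refine ⟨?_, ?_⟩
  · rw [List.map_append, List.isChain_append]
    refine ⟨h.1, h'.1, ?_⟩
    intro x hx y hy
    rw [Option.mem_def, List.getLast?_map, Option.map_eq_some_iff] at hx
    rw [Option.mem_def, List.head?_map, Option.map_eq_some_iff] at hy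
    obtain ⟨p, hp, rfl⟩ := hx
    obtain ⟨q, hq, rfl⟩ := hy
    exact hh p hp q hq
  · intro p hp
    rcases List.mem_append.1 hp with hp | hp
    · exact h.2 p hp
    · exact h'.2 p hp

theorem wp_cons {J : Type} (p : J × D) (l : List (J × D)) : wprod (p :: l) = p.2 * wprod l := by
  simp [wprod]

theorem wp_append {J : Type} (l l' : List (J × D)) : wprod (l ++ l') = wprod l * wprod l' := by
  simp [wprod]

/-- Span of the products of the valid lists with a property. -/
def Sp {I : Type} (τ : D →ₗ[ℂ] ℂ) (S : I → StarSubalgebra ℂ D) (Q : List (I × D) → Prop) : Submodule ℂ D :=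
  Submodule.span ℂ {x | ∃ l, VL τ S l ∧ Q l ∧ x = wprod l}

theorem sp_mem {I : Type} {S : I → StarSubalgebra ℂ D} {Q : List (I × D) → Prop} {l : List (I × D)}
    (h : VL τ S l) (hQ : Q l) : wprod l ∈ Sp τ S Q := Submodule.subset_span ⟨l, h, hQ, rfl⟩

/-- All indices are in `J`. -/
def AJ {I : Type} (J : Set I) (l : List (I × D)) : Prop := ∀ p ∈ l, p.1 ∈ J

theorem mulS {I : Type} {S : I → StarSubalgebra ℂ D} (h1 : τ 1 = 1) (J : Set I) (j : I) (hj : j ∈ J) (x : D)
    (hx : x ∈ S j) (m : D) (hm : m ∈ Sp τ S (AJ J)) : x * m ∈ Sp τ S (AJ J) := by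
  classical
  unfold Sp at hm
  induction hm using Submodule.span_induction with
  | zero => rw [mul_zero]; exact Submodule.zero_mem _
  | add a b _ _ ha hb => rw [mul_add]; exact Submodule.add_mem _ ha hb
  | smul c a _ ha => rw [mul_smul_comm]; exact Submodule.smul_mem _ _ ha
  | mem m hm =>
    obtain ⟨l, hl, hJ, rfl⟩ := hm
    have key : ∀ (y : D) (l : List (I × D)), y ∈ S j → VL τ S l → AJ J l →
        (∀ q ∈ l.head?, j ≠ q.1) → y * wprod l ∈ Sp τ S (AJ J) := by
      intro y l hy hl hJ hh
      have e : y * wprod l = τ y • wprod l + wprod ((j, y - τ y • 1) :: l) := by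
        rw [wp_cons]
        simp only [sub_mul, smul_mul_assoc, one_mul]
        abel
      rw [e]
      refine Submodule.add_mem _ (Submodule.smul_mem _ _ (sp_mem hl hJ)) (sp_mem ?_ ?_)
      · rw [vl_cons]
        refine ⟨⟨sub_mem hy ((S j).smul_mem (one_mem _) _), ?_⟩, hh, hl⟩
        rw [map_sub, map_smul, h1, smul_eq_mul, mul_one, sub_self]
      · intro p hp
        rcases List.mem_cons.1 hp with rfl | hp
        · exact hj
        · exact hJ p hp
    cases l with
    | nil => exact key x [] hx hl hJ (by simp)
    | cons p l =>
      by_cases hp : j = p.1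
      · rw [wp_cons, ← mul_assoc]
        rw [vl_cons] at hl
        refine key (x * p.2) l (mul_mem hx (by rw [hp]; exact hl.1.1)) hl.2.2
          (fun q hq => hJ q (List.mem_cons_of_mem _ hq)) ?_
        intro q hq
        rw [hp]
        exact hl.2.1 q hq
      · exact key x _ hx hl hJ (by simpa using hp)

/-- The multiplier algebra of the span, closed under the star. -/
def Ka {I : Type} {S : I → StarSubalgebra ℂ D} (J : Set I) : StarSubalgebra ℂ D where
  carrier := {x | (∀ m ∈ Sp τ S (AJ J), x * m ∈ Sp τ S (AJ J)) ∧ ∀ m ∈ Sp τ S (AJ J), star x * m ∈ Sp τ S (AJ J)}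
  mul_mem' := by
    rintro a b ⟨ha, ha'⟩ ⟨hb, hb'⟩
    refine ⟨fun m hm => ?_, fun m hm => ?_⟩
    · rw [mul_assoc]
      exact ha _ (hb m hm)
    · rw [star_mul, mul_assoc]
      exact hb' _ (ha' m hm)
  add_mem' := by
    rintro a b ⟨ha, ha'⟩ ⟨hb, hb'⟩
    refine ⟨fun m hm => ?_, fun m hm => ?_⟩
    · rw [add_mul]
      exact Submodule.add_mem _ (ha m hm) (hb m hm)
    · rw [star_add, add_mul]
      exact Submodule.add_mem _ (ha' m hm) (hb' m hm)
  algebraMap_mem' := by
    intro r
    refine ⟨fun m hm => ?_, fun m hm => ?_⟩
    · rw [Algebra.algebraMap_eq_smul_one, smul_mul_assoc, one_mul]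
      exact Submodule.smul_mem _ _ hm
    · rw [Algebra.algebraMap_eq_smul_one, star_smul, star_one, smul_mul_assoc, one_mul]
      exact Submodule.smul_mem _ _ hm
  star_mem' := by
    rintro a ⟨ha, ha'⟩
    refine ⟨ha', ?_⟩
    rw [star_star]
    exact ha

/-- The algebra generated by the `S j`, `j ∈ J`, is contained in the span. -/
theorem sup_le {I : Type} {S : I → StarSubalgebra ℂ D} (h1 : τ 1 = 1) (J : Set I) (x : D)
    (hx : x ∈ ⨆ j ∈ J, S j) : x ∈ Sp τ S (AJ J) := by
  have h2 : (⨆ j ∈ J, S j) ≤ Ka (τ := τ) (S := S) J := by
    refine iSup₂_le fun j hj y hy => ?_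
    exact ⟨fun m hm => mulS h1 J j hj y hy m hm, fun m hm => mulS h1 J j hj (star y) (star_mem hy) m hm⟩
  have h3 := (h2 hx).1 1 (by
    have := sp_mem (τ := τ) (S := S) (Q := AJ J) (l := []) vl_nil (by intro p hp; simp at hp)
    simpa [wprod] using this)
  rwa [mul_one] at h3

/-- A centred element of the algebra generated by the `S j` is in the span of the nonempty words. -/
theorem centred {I : Type} {S : I → StarSubalgebra ℂ D} (h1 : τ 1 = 1) (hF : IsFree τ S) (J : Set I) (x : D)
    (hx : x ∈ ⨆ j ∈ J, S j) (hx0 : τ x = 0) : x ∈ Sp τ S (fun l => AJ J l ∧ l ≠ []) := by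
  have key : ∀ y ∈ Sp τ S (AJ J), y - τ y • 1 ∈ Sp τ S (fun l => AJ J l ∧ l ≠ []) := by
    intro y hy
    unfold Sp at hy
    induction hy using Submodule.span_induction with
    | zero => rw [map_zero, zero_smul, sub_zero]; exact Submodule.zero_mem _
    | add a b _ _ ha hb =>
      have e : a + b - τ (a + b) • (1 : D) = (a - τ a • 1) + (b - τ b • 1) := by
        rw [map_add, add_smul]
        abel
      rw [e]
      exact Submodule.add_mem _ ha hb
    | smul c a _ ha =>
      have e : c • a - τ (c • a) • (1 : D) = c • (a - τ a • 1) := by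
        rw [map_smul, smul_eq_mul, smul_sub, smul_smul]
      rw [e]
      exact Submodule.smul_mem _ _ ha
    | mem m hm =>
      obtain ⟨l, hl, hJ, rfl⟩ := hm
      by_cases h0 : l = []
      · have e : wprod l - τ (wprod l) • (1 : D) = 0 := by
          have e1 : wprod l = (1 : D) := by rw [h0]; simp [wprod]
          rw [e1, h1, one_smul, sub_self]
        rw [e]
        exact Submodule.zero_mem _
      · have e : τ (wprod l) = 0 := hF l h0 hl.1 hl.2
        rw [e, zero_smul, sub_zero]
        exact sp_mem hl ⟨hJ, h0⟩
  have h2 := key x (sup_le h1 J x hx)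
  rwa [hx0, zero_smul, sub_zero] at h2

end GRPM

open GRPM in
/-- (A7) grouping in free families. -/
theorem pGRP0 : S_GRP0 := by
  classical
  intro D _ τ hτ I S hF J
  have h1 : τ 1 = 1 := hτ.state.1
  set S' : Option {i // i ∉ J} → StarSubalgebra ℂ D := fun o => o.elim (⨆ j ∈ J, S j) (fun i => S i) with hS'
  let t : I → Option {i // i ∉ J} := fun i => if h : i ∈ J then none else some ⟨i, h⟩
  have htJ : ∀ i ∈ J, t i = none := fun i hi => dif_pos hi
  have htn : ∀ (i : I) (hi : i ∉ J), t i = some ⟨i, hi⟩ := fun i hi => dif_neg hi
  have htn' : ∀ i : I, t i = none → i ∈ J := by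
    intro i hi
    by_contra h
    rw [htn i h] at hi
    simp at hi
  have key : ∀ l : List (Option {i // i ∉ J} × D), VL τ S' l →
      wprod l ∈ Sp τ S (fun m => m.head?.map (fun p => t p.1) = l.head?.map Prod.fst) := by
    intro l
    induction l with
    | nil =>
      intro _
      have := sp_mem (τ := τ) (S := S)
        (Q := fun m => m.head?.map (fun p => t p.1) =
          ([] : List (Option {i // i ∉ J} × D)).head?.map Prod.fst) (l := []) vl_nil (by simp)
      simpa [wprod] using this
    | cons p l ih =>
      intro hl
      rw [vl_cons] at hl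
      have ih' := ih hl.2.2
      rw [wp_cons]
      obtain ⟨o, a⟩ := p
      cases o with
      | some i =>
        have haS : a ∈ S i := hl.1.1
        have ha0 : τ a = 0 := hl.1.2
        -- `a * m` for `m` in the span of the words for the tail
        have h2 : ∀ m ∈ Sp τ S (fun m => m.head?.map (fun p => t p.1) = l.head?.map Prod.fst), a * m ∈
            Sp τ S (fun m => m.head?.map (fun p => t p.1) =
              (((some i, a) :: l : List (Option {i // i ∉ J} × D))).head?.map Prod.fst) := by
          intro m hm
          unfold Sp at hm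
          induction hm using Submodule.span_induction with
          | zero => rw [mul_zero]; exact Submodule.zero_mem _
          | add a b _ _ ha hb => rw [mul_add]; exact Submodule.add_mem _ ha hb
          | smul c a _ ha => rw [mul_smul_comm]; exact Submodule.smul_mem _ _ ha
          | mem m hm =>
            obtain ⟨m, hm, hh, rfl⟩ := hm
            have e : a * wprod m = wprod (((i : I), a) :: m) := by rw [wp_cons]
            rw [e]
            refine sp_mem ?_ ?_
            · rw [vl_cons]
              refine ⟨⟨haS, ha0⟩, ?_, hm⟩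
              intro q hq he
              rw [Option.mem_def] at hq
              rw [hq, Option.map_some] at hh
              have h3 : ∃ q' ∈ l.head?, q'.1 = t q.1 := by
                cases hl0 : l.head? with
                | none =>
                  rw [hl0] at hh
                  simp at hh
                | some q' =>
                  rw [hl0] at hh
                  simp only [Option.map_some, Option.some.injEq] at hh
                  exact ⟨q', by simp, hh.symm⟩
              obtain ⟨q', hq', he'⟩ := h3
              refine hl.2.1 q' hq' ?_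
              rw [he', ← he]
              exact (htn i i.2).symm
            · simp only [List.head?_cons, Option.map_some, Option.some.injEq]
              exact htn i i.2
        exact h2 _ ih'
      | none =>
        have haS : a ∈ ⨆ j ∈ J, S j := hl.1.1
        have ha0 : τ a = 0 := hl.1.2
        have ha := centred h1 hF J a haS ha0
        have h2 : ∀ x ∈ Sp τ S (fun l => AJ J l ∧ l ≠ []),
            ∀ m ∈ Sp τ S (fun m => m.head?.map (fun p => t p.1) = l.head?.map Prod.fst), x * m ∈
            Sp τ S (fun m => m.head?.map (fun p => t p.1) =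
              (((none, a) :: l : List (Option {i // i ∉ J} × D))).head?.map Prod.fst) := by
          intro x hx m hm
          unfold Sp at hx hm
          induction hx using Submodule.span_induction with
          | zero => rw [zero_mul]; exact Submodule.zero_mem _
          | add a b _ _ ha hb => rw [add_mul]; exact Submodule.add_mem _ ha hb
          | smul c a _ ha => rw [smul_mul_assoc]; exact Submodule.smul_mem _ _ ha
          | mem x hx =>
            obtain ⟨n, hn, ⟨hnJ, hn0⟩, rfl⟩ := hx
            induction hm using Submodule.span_induction with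
            | zero => rw [mul_zero]; exact Submodule.zero_mem _
            | add a b _ _ ha hb => rw [mul_add]; exact Submodule.add_mem _ ha hb
            | smul c a _ ha => rw [mul_smul_comm]; exact Submodule.smul_mem _ _ ha
            | mem m hm =>
              obtain ⟨m, hm, hh, rfl⟩ := hm
              rw [← wp_append]
              refine sp_mem (vl_append hn hm ?_) ?_
              · intro p hp q hq he
                have hpJ : p.1 ∈ J := hnJ p (List.mem_of_getLast? hp)
                rw [Option.mem_def] at hq
                rw [hq, Option.map_some] at hh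
                have h3 : ∃ q' ∈ l.head?, q'.1 = t q.1 := by
                  cases hl0 : l.head? with
                  | none =>
                    rw [hl0] at hh
                    simp at hh
                  | some q' =>
                    rw [hl0] at hh
                    simp only [Option.map_some, Option.some.injEq] at hh
                    exact ⟨q', by simp, hh.symm⟩
                obtain ⟨q', hq', he'⟩ := h3
                refine hl.2.1 q' hq' ?_
                rw [he', ← he]
                exact (htJ _ hpJ).symm
              · cases n with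
                | nil => exact absurd rfl hn0
                | cons p n =>
                  simp only [List.cons_append, List.head?_cons, Option.map_some, Option.some.injEq]
                  exact htJ _ (hnJ p List.mem_cons_self)
        exact h2 a ha _ ih'
  intro l hl0 hc hm
  have h2 := key l ⟨hc, hm⟩
  show τ (wprod l) = 0
  have h3 : ∀ x ∈ Sp τ S (fun m => m.head?.map (fun p => t p.1) = l.head?.map Prod.fst), τ x = 0 := by
    intro x hx
    unfold Sp at hx
    induction hx using Submodule.span_induction with
    | zero => exact map_zero τ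
    | add a b _ _ ha hb => rw [map_add, ha, hb, add_zero]
    | smul c a _ ha => rw [map_smul, ha, smul_zero]
    | mem m hm =>
      obtain ⟨m, hm, hh, rfl⟩ := hm
      refine hF m ?_ hm.1 hm.2
      rintro rfl
      cases l with
      | nil => exact hl0 rfl
      | cons p l => simp at hh
  exact h3 _ h2

end Pool.Agent.FT
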