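import Pool.Agent.Lib.FT.SpecA

set_option autoImplicit false

namespace Pool.Agent.FT

private theorem mom_list {B D : Type} [CStarAlgebra B] [CStarAlgebra D] (b : ℕ → B) (x : ℕ → D) :
    ∀ l : List (B × D), (∀ y ∈ l, y ∈ Set.range fun k => (b k, x k)) →
      ∃ l' : List ℕ, l.prod = ((l'.map b).prod, (l'.map x).prod) := by
  intro l
  induction l with
  | nil => intro _; exact ⟨[], rfl⟩
  | cons y l ih =>
    intro hl
    obtain ⟨k, hk⟩ := hl y List.mem_cons_self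
    obtain ⟨l', hl'⟩ := ih fun z hz => hl z (List.mem_cons_of_mem _ hz)
    refine ⟨k :: l', ?_⟩
    rw [List.prod_cons, hl', ← hk, List.map_cons, List.map_cons, List.prod_cons,
      List.prod_cons]
    rfl

private theorem mom_adjoin {B D : Type} [CStarAlgebra B] [CStarAlgebra D] (τ : B →ₗ[ℂ] ℂ)
    (σ : D →ₗ[ℂ] ℂ) (b : ℕ → B) (x : ℕ → D)
    (hb : ∀ k, star (b k) = b k) (hx : ∀ k, star (x k) = x k)
    (hm : ∀ l : List ℕ, τ (l.map b).prod = σ (l.map x).prod) :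
    ∀ γ ∈ StarAlgebra.adjoin ℂ (Set.range fun k => (b k, x k)), τ γ.1 = σ γ.2 := by
  intro γ hγ
  have h1 : γ ∈ (StarAlgebra.adjoin ℂ (Set.range fun k => (b k, x k))).toSubalgebra := hγ
  rw [StarAlgebra.adjoin_toSubalgebra] at h1
  have hstar : star (Set.range fun k => (b k, x k)) = Set.range fun k => (b k, x k) := by
    ext y
    rw [Set.mem_star]
    constructor
    · rintro ⟨k, hk⟩
      refine ⟨k, ?_⟩
      have := congrArg star hk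
      rw [star_star] at this
      rw [← this]
      exact (Prod.ext (hb k) (hx k)).symm
    · rintro ⟨k, hk⟩
      refine ⟨k, ?_⟩
      rw [← hk]
      exact (Prod.ext (hb k) (hx k)).symm
  rw [hstar, Set.union_self] at h1
  have h2 : γ ∈ Submodule.span ℂ
      (Submonoid.closure (Set.range fun k => (b k, x k)) : Set (B × D)) := by
    rw [← Algebra.adjoin_eq_span]; exact h1
  have h3 : Submodule.span ℂ
      (Submonoid.closure (Set.range fun k => (b k, x k)) : Set (B × D)) ≤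
      LinearMap.eqLocus (τ ∘ₗ LinearMap.fst ℂ B D) (σ ∘ₗ LinearMap.snd ℂ B D) := by
    rw [Submodule.span_le]
    intro y hy
    obtain ⟨l, hl, rfl⟩ := Submonoid.exists_list_of_mem_closure hy
    obtain ⟨l', hl'⟩ := mom_list b x l hl
    rw [hl']
    exact hm l'
  exact h3 h2

private theorem n2_eq {B D : Type} [CStarAlgebra B] [CStarAlgebra D] {τ : B →ₗ[ℂ] ℂ}
    {σ : D →ₗ[ℂ] ℂ} (Γ : StarSubalgebra ℂ (B × D)) (hm : ∀ γ ∈ Γ, τ γ.1 = σ γ.2)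
    {γ : B × D} (hγ : γ ∈ Γ) : n2 τ γ.1 = n2 σ γ.2 := by
  unfold n2
  have := hm (star γ * γ) (mul_mem (star_mem hγ) hγ)
  have h1 : τ (star γ.1 * γ.1) = σ (star γ.2 * γ.2) := this
  rw [h1]

private theorem side (hNL : S_NL) {B D : Type} [CStarAlgebra B] [CStarAlgebra D] {τ : B →ₗ[ℂ] ℂ}
    {σ : D →ₗ[ℂ] ℂ} (hτ : IsFTrace τ) (hσ : IsFTrace σ) (Γ : StarSubalgebra ℂ (B × D))
    (hm : ∀ γ ∈ Γ, τ γ.1 = σ γ.2) : ∀ γ ∈ Γ, ‖γ.1‖ ≤ ‖γ.2‖ := by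
  intro γ hγ
  refine hNL B τ hτ (Γ.map (StarAlgHom.fst ℂ B D)) γ.1 ‖γ.2‖ (norm_nonneg _) ?_ ?_
  · exact StarSubalgebra.le_topologicalClosure _ (StarSubalgebra.mem_map.mpr ⟨γ, hγ, rfl⟩)
  · rintro y hy z hz
    obtain ⟨ζ, hζ, rfl⟩ := StarSubalgebra.mem_map.mp hy
    obtain ⟨η, hη, rfl⟩ := StarSubalgebra.mem_map.mp hz
    change ‖τ (star ζ.1 * γ.1 * η.1)‖ ≤ ‖γ.2‖ * n2 τ ζ.1 * n2 τ η.1
    have h1 : ‖τ (star ζ.1 * (γ.1 * η.1))‖ ≤ n2 τ ζ.1 * n2 τ (γ.1 * η.1) :=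
      hτ.state.cs _ _
    have h2 : n2 τ (γ.1 * η.1) = n2 σ (γ.2 * η.2) := n2_eq Γ hm (mul_mem hγ hη)
    have h3 : n2 σ (γ.2 * η.2) ≤ ‖γ.2‖ * n2 σ η.2 := hσ.state.n2_mul_le _ _
    have h4 : n2 τ η.1 = n2 σ η.2 := n2_eq Γ hm hη
    rw [mul_assoc]
    calc ‖τ (star ζ.1 * (γ.1 * η.1))‖ ≤ n2 τ ζ.1 * n2 τ (γ.1 * η.1) := h1
      _ ≤ n2 τ ζ.1 * (‖γ.2‖ * n2 τ η.1) := by
        rw [h2, h4]; exact mul_le_mul_of_nonneg_left h3 (n2_nonneg _ _)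
      _ = ‖γ.2‖ * n2 τ ζ.1 * n2 τ η.1 := by ring

private theorem side' (hNL : S_NL) {B D : Type} [CStarAlgebra B] [CStarAlgebra D]
    {τ : B →ₗ[ℂ] ℂ} {σ : D →ₗ[ℂ] ℂ} (hτ : IsFTrace τ) (hσ : IsFTrace σ)
    (Γ : StarSubalgebra ℂ (B × D))
    (hm : ∀ γ ∈ Γ, τ γ.1 = σ γ.2) : ∀ γ ∈ Γ, ‖γ.2‖ ≤ ‖γ.1‖ := by
  intro γ hγ
  refine hNL D σ hσ (Γ.map (StarAlgHom.snd ℂ B D)) γ.2 ‖γ.1‖ (norm_nonneg _) ?_ ?_
  · exact StarSubalgebra.le_topologicalClosure _ (StarSubalgebra.mem_map.mpr ⟨γ, hγ, rfl⟩)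
  · rintro y hy z hz
    obtain ⟨ζ, hζ, rfl⟩ := StarSubalgebra.mem_map.mp hy
    obtain ⟨η, hη, rfl⟩ := StarSubalgebra.mem_map.mp hz
    change ‖σ (star ζ.2 * γ.2 * η.2)‖ ≤ ‖γ.1‖ * n2 σ ζ.2 * n2 σ η.2
    have h1 : ‖σ (star ζ.2 * (γ.2 * η.2))‖ ≤ n2 σ ζ.2 * n2 σ (γ.2 * η.2) :=
      hσ.state.cs _ _
    have h2 : n2 τ (γ.1 * η.1) = n2 σ (γ.2 * η.2) := n2_eq Γ hm (mul_mem hγ hη)
    have h3 : n2 τ (γ.1 * η.1) ≤ ‖γ.1‖ * n2 τ η.1 := hτ.state.n2_mul_le _ _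
    have h4 : n2 τ η.1 = n2 σ η.2 := n2_eq Γ hm hη
    rw [mul_assoc]
    calc ‖σ (star ζ.2 * (γ.2 * η.2))‖ ≤ n2 σ ζ.2 * n2 σ (γ.2 * η.2) := h1
      _ ≤ n2 σ ζ.2 * (‖γ.1‖ * n2 σ η.2) := by
        rw [← h2, ← h4]; exact mul_le_mul_of_nonneg_left h3 (n2_nonneg _ _)
      _ = ‖γ.1‖ * n2 σ ζ.2 * n2 σ η.2 := by ring

/-- an isometric star homomorphism from a closed subalgebra with dense range is bijective -/
private theorem bij_of_isometry {E A : Type} [CStarAlgebra E] [CStarAlgebra A]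
    (Γ : StarSubalgebra ℂ E) (hΓ : IsClosed (Γ : Set E)) (f : Γ →⋆ₐ[ℂ] A)
    (hf : ∀ γ, ‖f γ‖ = ‖γ‖) (S : StarSubalgebra ℂ A) (hS : S.topologicalClosure = ⊤)
    (hSf : S ≤ f.range) : Function.Bijective f := by
  have hiso : Isometry f := AddMonoidHomClass.isometry_of_norm f hf
  refine ⟨hiso.injective, ?_⟩
  have hcs : CompleteSpace Γ := hΓ.completeSpace_coe
  have hcl : IsClosed (Set.range f) := hiso.isClosedEmbedding.isClosed_range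
  intro a
  have h1 : a ∈ S.topologicalClosure := by rw [hS]; exact StarSubalgebra.mem_top
  have h2 : (S : Set A) ⊆ Set.range f := fun y hy => hSf hy
  have h3 : a ∈ closure (S : Set A) := h1
  exact closure_minimal h2 hcl h3

theorem pISO (hNL : S_NL) : S_ISO := by
  intro B _ D _ τ σ b x hτ hσ hb hx hB hD hm
  set G : Set (B × D) := Set.range fun k => (b k, x k) with hG
  set Γ₀ : StarSubalgebra ℂ (B × D) := StarAlgebra.adjoin ℂ G with hΓ₀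
  have hm₀ : ∀ γ ∈ Γ₀, τ γ.1 = σ γ.2 := mom_adjoin τ σ b x hb hx hm
  set Γ : StarSubalgebra ℂ (B × D) := Γ₀.topologicalClosure with hΓ
  have hΓc : IsClosed (Γ : Set (B × D)) := Γ₀.isClosed_topologicalClosure
  have hn₀ : ∀ γ ∈ Γ₀, ‖γ.1‖ = ‖γ.2‖ := fun γ hγ =>
    le_antisymm (side hNL hτ hσ Γ₀ hm₀ γ hγ) (side' hNL hτ hσ Γ₀ hm₀ γ hγ)
  have hn : ∀ γ ∈ Γ, ‖γ.1‖ = ‖γ.2‖ := by
    have hcl : IsClosed {γ : B × D | ‖γ.1‖ = ‖γ.2‖} := isClosed_eq (by fun_prop) (by fun_prop)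
    intro γ hγ
    exact closure_minimal (fun y hy => hn₀ y hy) hcl hγ
  have hle : Γ₀ ≤ Γ := StarSubalgebra.le_topologicalClosure _
  let f₁ : Γ →⋆ₐ[ℂ] B := (StarAlgHom.fst ℂ B D).comp Γ.subtype
  let f₂ : Γ →⋆ₐ[ℂ] D := (StarAlgHom.snd ℂ B D).comp Γ.subtype
  have hf₁ : ∀ γ : Γ, ‖f₁ γ‖ = ‖γ‖ := by
    intro γ
    have h1 : ‖γ‖ = max ‖(γ : B × D).1‖ ‖(γ : B × D).2‖ := rfl
    rw [h1, ← hn γ γ.2, max_self]
    rfl
  have hf₂ : ∀ γ : Γ, ‖f₂ γ‖ = ‖γ‖ := by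
    intro γ
    have h1 : ‖γ‖ = max ‖(γ : B × D).1‖ ‖(γ : B × D).2‖ := rfl
    rw [h1, hn γ γ.2, max_self]
    rfl
  have hr₁ : StarAlgebra.adjoin ℂ (Set.range b) ≤ f₁.range := by
    have e : StarAlgebra.adjoin ℂ (Set.range b) = Γ₀.map (StarAlgHom.fst ℂ B D) := by
      rw [hΓ₀, StarAlgHom.map_adjoin, hG, ← Set.range_comp]
      rfl
    rw [e]
    intro y hy
    obtain ⟨γ, hγ, rfl⟩ := StarSubalgebra.mem_map.mp hy
    exact ⟨⟨γ, hle hγ⟩, rfl⟩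
  have hr₂ : StarAlgebra.adjoin ℂ (Set.range x) ≤ f₂.range := by
    have e : StarAlgebra.adjoin ℂ (Set.range x) = Γ₀.map (StarAlgHom.snd ℂ B D) := by
      rw [hΓ₀, StarAlgHom.map_adjoin, hG, ← Set.range_comp]
      rfl
    rw [e]
    intro y hy
    obtain ⟨γ, hγ, rfl⟩ := StarSubalgebra.mem_map.mp hy
    exact ⟨⟨γ, hle hγ⟩, rfl⟩
  have hb₁ : Function.Bijective f₁ := bij_of_isometry Γ hΓc f₁ hf₁ _ hB hr₁
  have hb₂ : Function.Bijective f₂ := bij_of_isometry Γ hΓc f₂ hf₂ _ hD hr₂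
  exact ⟨(StarAlgEquiv.ofBijective f₂ hb₂).symm.trans (StarAlgEquiv.ofBijective f₁ hb₁)⟩

end Pool.Agent.FT
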