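import Pool.Agent.Lib.FT.A.Rei

/-!
# C44, block A: images of free families under trace preserving *-homomorphisms (helper71)
-/

set_option autoImplicit false

namespace Pool.Agent.FT

namespace Rei

theorem pull {A B : Type*} [CStarAlgebra A] [CStarAlgebra B] {I : Type*}
    {S : I → StarSubalgebra ℂ A} (ρ : A →⋆ₐ[ℂ] B) : ∀ l : List (I × B),
    (∀ p ∈ l, p.2 ∈ (S p.1).map ρ) →
      ∃ m : List (I × A), m.map (fun p => (p.1, ρ p.2)) = l ∧ ∀ p ∈ m, p.2 ∈ S p.1
  | [], _ => ⟨[], rfl, by simp⟩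
  | (i, y) :: l, h => by
    obtain ⟨m, hm1, hm2⟩ := pull ρ l (fun p hp => h p (List.mem_cons_of_mem _ hp))
    obtain ⟨x, hx, hxy⟩ := h (i, y) List.mem_cons_self
    refine ⟨(i, x) :: m, ?_, ?_⟩
    · rw [List.map_cons, hm1]
      simp only [List.cons.injEq, Prod.mk.injEq, true_and, and_true]
      exact hxy
    · intro p hp
      rcases List.mem_cons.1 hp with rfl | hp
      · exact hx
      · exact hm2 p hp

theorem image {A B : Type*} [CStarAlgebra A] [CStarAlgebra B] {φ : A →ₗ[ℂ] ℂ} {σ : B →ₗ[ℂ] ℂ}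
    {I : Type*} {S : I → StarSubalgebra ℂ A} (h : IsFree φ S) (ρ : A →⋆ₐ[ℂ] B)
    (hρ : ∀ x, σ (ρ x) = φ x) : IsFree σ (fun i => (S i).map ρ) := by
  intro l hl hc hm
  obtain ⟨m, rfl, hm2⟩ := pull ρ l (fun p hp => (hm p hp).1)
  have e : (m.map fun p => (p.1, ρ p.2)).map Prod.snd = (m.map Prod.snd).map ρ := by
    rw [List.map_map, List.map_map]
    rfl
  have e' : (m.map fun p => (p.1, ρ p.2)).map Prod.fst = m.map Prod.fst := by
    rw [List.map_map]
    rfl
  rw [e, ← map_list_prod, hρ]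
  refine h m (by simpa using hl) (by rwa [e'] at hc) fun p hp => ⟨hm2 p hp, ?_⟩
  have := (hm (p.1, ρ p.2) (List.mem_map.2 ⟨p, hp, rfl⟩)).2
  rwa [hρ] at this

/-- conjugation by a unitary -/
def Ad {D : Type*} [CStarAlgebra D] (w : D) (h1 : star w * w = 1) (h2 : w * star w = 1) :
    D →⋆ₐ[ℂ] D where
  toFun x := star w * x * w
  map_one' := by rw [mul_one, h1]
  map_mul' x y := by
    have : star w * x * w * (star w * y * w) = star w * x * (w * star w) * y * w := by
      simp only [mul_assoc]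
    rw [this, h2, mul_one]
    simp only [mul_assoc]
  map_zero' := by rw [mul_zero, zero_mul]
  map_add' x y := by rw [mul_add, add_mul]
  commutes' r := by
    rw [← Algebra.commutes, mul_assoc, h1, mul_one]
  map_star' x := by
    rw [star_mul, star_mul, star_star]
    simp only [mul_assoc]

end Rei

end Pool.Agent.FT
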