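import Pool.Agent.Lib.FT.SpecA

set_option autoImplicit false

noncomputable section

namespace Pool.Agent.FT

/-- (A6) mixing by `w 0 * w 1`. -/
theorem pMIX : S_MIX := by
  intro D _ τ P w hτ hS x hx y hy
  have h1 : τ 1 = 1 := hτ.state.1
  have hP1 : (1 : D) ∈ P := one_mem P
  -- centred parts
  obtain ⟨x', hx'P, hx't, hxe⟩ : ∃ x' ∈ P, τ x' = 0 ∧ x = τ x • 1 + x' := by
    refine ⟨x - τ x • 1, sub_mem hx (P.smul_mem hP1 _), ?_, by abel⟩
    rw [map_sub, map_smul, h1, smul_eq_mul, mul_one, sub_self]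
  obtain ⟨y', hy'P, hy't, hye⟩ : ∃ y' ∈ P, τ y' = 0 ∧ y = τ y • 1 + y' := by
    refine ⟨y - τ y • 1, sub_mem hy (P.smul_mem hP1 _), ?_, by abel⟩
    rw [map_sub, map_smul, h1, smul_eq_mul, mul_one, sub_self]
  have hq0 := hS.sq 0
  have hq1 := hS.sq 1
  have hs : star (w 0 * w 1) = w 1 * w 0 := by rw [star_mul, hS.sa, hS.sa]
  have hw1 : w 1 * (w 1 * w 0) = w 0 := by rw [← mul_assoc, hq1, one_mul]
  have hw0 : w 0 * (w 0 * w 1) = w 1 := by rw [← mul_assoc, hq0, one_mul]
  -- the words
  have e1 : τ (x' * (w 0 * (w 1 * (y' * (w 1 * w 0))))) = 0 := by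
    have h := hS.free [(none, x'), (some 0, w 0), (some 1, w 1), (none, y'), (some 1, w 1), (some 0, w 0)]
      (by simp) ⟨by simp, by
        intro p hp
        simp only [List.mem_cons, List.not_mem_nil, or_false] at hp
        rcases hp with rfl | rfl | rfl | rfl | rfl | rfl <;> simp [hx'P, hx't, hy'P, hy't]⟩
    simpa [wprod] using h
  have e2 : τ (x' * (w 0 * (w 1 * (y' * (w 0 * w 1))))) = 0 := by
    have h := hS.free [(none, x'), (some 0, w 0), (some 1, w 1), (none, y'), (some 0, w 0), (some 1, w 1)]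
      (by simp) ⟨by simp, by
        intro p hp
        simp only [List.mem_cons, List.not_mem_nil, or_false] at hp
        rcases hp with rfl | rfl | rfl | rfl | rfl | rfl <;> simp [hx'P, hx't, hy'P, hy't]⟩
    simpa [wprod] using h
  have e3 : τ (w 0 * (w 1 * (w 0 * w 1))) = 0 := by
    have h := hS.free [(some 0, w 0), (some 1, w 1), (some 0, w 0), (some 1, w 1)]
      (by simp) ⟨by simp, by
        intro p hp
        simp only [List.mem_cons, List.not_mem_nil, or_false] at hp
        rcases hp with rfl | rfl | rfl | rfl <;> simp⟩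
    simpa [wprod] using h
  have e4 : τ (x' * (w 0 * (w 1 * (w 0 * w 1)))) = 0 := by
    have h := hS.free [(none, x'), (some 0, w 0), (some 1, w 1), (some 0, w 0), (some 1, w 1)]
      (by simp) ⟨by simp, by
        intro p hp
        simp only [List.mem_cons, List.not_mem_nil, or_false] at hp
        rcases hp with rfl | rfl | rfl | rfl | rfl <;> simp [hx'P, hx't]⟩
    simpa [wprod] using h
  have e5 : τ (w 0 * (w 1 * (y' * (w 0 * w 1)))) = 0 := by
    have h := hS.free [(some 0, w 0), (some 1, w 1), (none, y'), (some 0, w 0), (some 1, w 1)]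
      (by simp) ⟨by simp, by
        intro p hp
        simp only [List.mem_cons, List.not_mem_nil, or_false] at hp
        rcases hp with rfl | rfl | rfl | rfl | rfl <;> simp [hy'P, hy't]⟩
    simpa [wprod] using h
  have e6 : τ (w 0 * (w 1 * (y' * (w 1 * w 0)))) = 0 := by
    have h2 : w 0 * (w 1 * (y' * (w 1 * w 0))) = (w 0 * w 1) * y' * star (w 0 * w 1) := by
      rw [hs]
      simp only [mul_assoc]
    rw [h2, hτ.conj (by rw [hs, mul_assoc, ← mul_assoc (w 0) (w 0), hq0, one_mul, hq1]), hy't]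
  refine ⟨?_, ?_⟩
  · have h2 : x * (w 0 * w 1) * y * star (w 0 * w 1) = (τ x * τ y) • (1 : D) +
        τ x • (w 0 * (w 1 * (y' * (w 1 * w 0)))) + τ y • x' +
        x' * (w 0 * (w 1 * (y' * (w 1 * w 0)))) := by
      rw [hs]
      conv_lhs => rw [hxe, hye]
      simp only [add_mul, mul_add, smul_mul_assoc, mul_smul_comm, one_mul, mul_one, mul_assoc, hw1, hq0,
        smul_add, smul_smul]
      rw [mul_comm (τ y) (τ x)]
      abel
    rw [h2, map_add, map_add, map_add, map_smul, map_smul, map_smul, h1, e6, e1, hx't]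
    simp
  · have h2 : x * (w 0 * w 1) * y * (w 0 * w 1) = (τ x * τ y) • (w 0 * (w 1 * (w 0 * w 1))) +
        τ x • (w 0 * (w 1 * (y' * (w 0 * w 1)))) + τ y • (x' * (w 0 * (w 1 * (w 0 * w 1)))) +
        x' * (w 0 * (w 1 * (y' * (w 0 * w 1)))) := by
      conv_lhs => rw [hxe, hye]
      simp only [add_mul, mul_add, smul_mul_assoc, mul_smul_comm, one_mul, mul_one, mul_assoc, smul_add,
        smul_smul]
      rw [mul_comm (τ y) (τ x)]
      abel
    rw [h2, map_add, map_add, map_add, map_smul, map_smul, map_smul, e3, e5, e4, e2]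
    simp

end Pool.Agent.FT
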