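import Pool.Agent.Lib.FT.SpecA

/-!
# C44, A15: free sequences of symmetries of trace zero have the same moments (helper71)
-/

set_option autoImplicit false

namespace Pool.Agent.FT

namespace MOM

private theorem dich : ∀ l : List ℕ, l.IsChain (· ≠ ·) ∨ ∃ l₁ k l₂, l = l₁ ++ k :: k :: l₂
  | [] => Or.inl List.IsChain.nil
  | [_] => Or.inl (List.IsChain.singleton _)
  | a :: b :: l => by
    by_cases hab : a = b
    · subst hab
      exact Or.inr ⟨[], a, l, rfl⟩
    · rcases dich (b :: l) with h | ⟨l₁, k, l₂, h⟩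
      · exact Or.inl (List.IsChain.cons_cons hab h)
      · exact Or.inr ⟨a :: l₁, k, l₂, by rw [h]; rfl⟩

private theorem zero {B : Type} [CStarAlgebra B] {τ : B →ₗ[ℂ] ℂ} {b : ℕ → B}
    (h0 : ∀ k, τ (b k) = 0) (hf : IsFree τ (fun k => StarAlgebra.adjoin ℂ {b k}))
    {l : List ℕ} (hne : l ≠ []) (hl : l.IsChain (· ≠ ·)) : τ (l.map b).prod = 0 := by
  have h1 := hf (l.map fun k => (k, b k)) (by simpa using hne)
    (by rw [List.map_map]; simpa [Function.comp_def] using hl) (by
      intro p hp
      rw [List.mem_map] at hp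
      obtain ⟨k, -, rfl⟩ := hp
      exact ⟨StarAlgebra.subset_adjoin ℂ {b k} rfl, h0 k⟩)
  rw [List.map_map] at h1
  exact h1

private theorem red {B : Type} [CStarAlgebra B] {b : ℕ → B} (hs : ∀ k, b k * b k = 1)
    (l₁ l₂ : List ℕ) (k : ℕ) :
    ((l₁ ++ k :: k :: l₂).map b).prod = ((l₁ ++ l₂).map b).prod := by
  rw [List.map_append, List.prod_append, List.map_cons, List.map_cons, List.prod_cons,
    List.prod_cons, ← mul_assoc (b k), hs, one_mul, List.map_append, List.prod_append]

end MOM

theorem pMOM : S_MOM := by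
  intro B _ D _ τ σ b x hτ hσ hb hx hb0 hx0 hfb hfx
  have key : ∀ n : ℕ, ∀ l : List ℕ, l.length ≤ n → τ (l.map b).prod = σ (l.map x).prod := by
    intro n
    induction n with
    | zero =>
      intro l hl
      have : l = [] := List.length_eq_zero_iff.1 (Nat.le_zero.1 hl)
      subst this
      simp [hτ, hσ]
    | succ n ih =>
      intro l hl
      rcases MOM.dich l with hc | ⟨l₁, k, l₂, rfl⟩
      · by_cases hne : l = []
        · subst hne
          simp [hτ, hσ]
        · rw [MOM.zero hb0 hfb hne hc, MOM.zero hx0 hfx hne hc]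
      · rw [MOM.red hb, MOM.red hx]
        apply ih
        simp only [List.length_append, List.length_cons] at hl ⊢
        omega
  exact fun l => key l.length l le_rfl

end Pool.Agent.FT
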