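import Pool.Agent.Lib.FT.SpecA

set_option autoImplicit false

namespace Pool.Agent.FT

private theorem ext_closure {D : Type} [CStarAlgebra D] {τ : D →ₗ[ℂ] ℂ} (h : IsFTrace τ)
    (W : StarSubalgebra ℂ D) (c : D) (M : ℝ)
    (hW : ∀ y ∈ W, ∀ z ∈ W, ‖τ (star y * c * z)‖ ≤ M * n2 τ y * n2 τ z) :
    ∀ y ∈ W.topologicalClosure, ∀ z ∈ W.topologicalClosure,
      ‖τ (star y * c * z)‖ ≤ M * n2 τ y * n2 τ z := by
  have hc := h.state.continuous
  have hn := h.state.continuous_n2
  have step : ∀ y ∈ W, ∀ z ∈ W.topologicalClosure,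
      ‖τ (star y * c * z)‖ ≤ M * n2 τ y * n2 τ z := by
    intro y hy
    have hcl : IsClosed {z : D | ‖τ (star y * c * z)‖ ≤ M * n2 τ y * n2 τ z} := by
      refine isClosed_le ?_ ?_
      · fun_prop
      · fun_prop
    have hsub : (W : Set D) ⊆ {z : D | ‖τ (star y * c * z)‖ ≤ M * n2 τ y * n2 τ z} :=
      fun z hz => hW y hy z hz
    exact fun z hz => closure_minimal hsub hcl hz
  intro y hy z hz
  have hcl : IsClosed {y : D | ‖τ (star y * c * z)‖ ≤ M * n2 τ y * n2 τ z} := by
    refine isClosed_le ?_ ?_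
    · fun_prop
    · fun_prop
  have hsub : (W : Set D) ⊆ {y : D | ‖τ (star y * c * z)‖ ≤ M * n2 τ y * n2 τ z} :=
    fun y hy => step y hy z hz
  exact closure_minimal hsub hcl hy

theorem pNL : S_NL := by
  intro D _ τ hτ W c M hM hc hW
  let _ : PartialOrder D := CStarAlgebra.spectralOrder D
  have _ : StarOrderedRing D := CStarAlgebra.spectralOrderedRing D
  have hE := ext_closure hτ W c M hW
  set E := W.topologicalClosure with hEdef
  have _ : IsClosed (E : Set D) := W.isClosed_topologicalClosure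
  -- the inequality for the 2-norms
  have hcz : ∀ z ∈ E, n2 τ (c * z) ≤ M * n2 τ z := by
    intro z hz
    have h1 := hE (c * z) (mul_mem hc hz) z hz
    have h2 : star (c * z) * c * z = star (c * z) * (c * z) := by rw [mul_assoc]
    rw [h2, ← hτ.state.n2_sq' (c * z), Complex.norm_real, Real.norm_eq_abs,
      abs_of_nonneg (sq_nonneg _)] at h1
    rcases eq_or_lt_of_le (n2_nonneg τ (c * z)) with h0 | h0
    · rw [← h0]; exact mul_nonneg hM (n2_nonneg _ _)
    · have : n2 τ (c * z) * n2 τ (c * z) ≤ (M * n2 τ z) * n2 τ (c * z) := by nlinarith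
      exact le_of_mul_le_mul_right this h0
  set a := star c * c with ha
  have hasa : IsSelfAdjoint a := IsSelfAdjoint.star_mul_self c
  have haE : a ∈ E := mul_mem (star_mem hc) hc
  set f : ℝ → ℝ := fun t => max (t - M ^ 2) 0 with hf
  set g : ℝ → ℝ := fun t => Real.sqrt (max (t - M ^ 2) 0) with hg
  have hfc : Continuous f := by fun_prop
  have hgc : Continuous g := by fun_prop
  set q := cfc f a with hq
  set z := cfc g a with hz
  have hzE : z ∈ E := cfc_mem g haE
  have hzsa : star z = z := (cfc_predicate g a : IsSelfAdjoint z)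
  have hqsa : star q = q := (cfc_predicate f a : IsSelfAdjoint q)
  have e1 : star z * z = q := by
    rw [hzsa, hz, hq, ← cfc_mul g g a (hgc.continuousOn) (hgc.continuousOn)]
    apply cfc_congr
    intro t _
    exact Real.mul_self_sqrt (le_max_right _ _)
  have e2 : star z * a * z = q * q + (M ^ 2) • q := by
    have h1 : star z * a * z = cfc (fun t => g t * t * g t) a := by
      rw [cfc_mul (fun t => g t * t) g a (by fun_prop) (hgc.continuousOn),
        cfc_mul g (fun t => t) a (hgc.continuousOn) (by fun_prop), cfc_id' ℝ a, hzsa]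
    have h2 : q * q + (M ^ 2) • q = cfc (fun t => f t * f t + M ^ 2 * f t) a := by
      rw [cfc_add a (fun t => f t * f t) (fun t => M ^ 2 * f t) (by fun_prop) (by fun_prop),
        cfc_mul f f a (by fun_prop) (by fun_prop), cfc_const_mul (M ^ 2) f a (by fun_prop)]
    rw [h1, h2]
    apply cfc_congr
    intro t _
    have h3 : g t * g t = f t := Real.mul_self_sqrt (le_max_right _ _)
    have h4 : g t * t * g t = f t * t := by rw [← h3]; ring
    change g t * t * g t = f t * f t + M ^ 2 * f t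
    rw [h4]
    have h5 : f t * (t - M ^ 2) = f t * f t := by
      change max (t - M ^ 2) 0 * (t - M ^ 2) = max (t - M ^ 2) 0 * max (t - M ^ 2) 0
      rcases le_total (t - M ^ 2) 0 with h | h
      · rw [max_eq_right h]; ring
      · rw [max_eq_left h]
    linarith
  have hq0 : q = 0 := by
    apply hτ.faithful
    rw [hqsa]
    have h1 : (τ (star z * a * z)).re = n2 τ (c * z) ^ 2 := by
      rw [hτ.state.n2_sq, ha, star_mul]
      simp only [mul_assoc]
    have h2 : (τ q).re = n2 τ z ^ 2 := by rw [hτ.state.n2_sq, e1]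
    have h3 : (τ (q * q)).re = n2 τ (c * z) ^ 2 - M ^ 2 * n2 τ z ^ 2 := by
      rw [← h1, ← h2, e2, map_add]
      have : (M ^ 2) • q = ((M ^ 2 : ℝ) : ℂ) • q := by rw [Complex.coe_smul]
      rw [this, map_smul, smul_eq_mul, Complex.add_re, Complex.re_ofReal_mul]
      ring
    have h4 : n2 τ (c * z) ^ 2 ≤ (M * n2 τ z) ^ 2 :=
      pow_le_pow_left₀ (n2_nonneg _ _) (hcz z hzE) 2
    have h5 : (τ (q * q)).re ≤ 0 := by rw [h3]; nlinarith
    have h6 := hτ.state.2 q
    rw [hqsa] at h6
    exact Complex.ext (le_antisymm h5 h6.1) h6.2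
  have hsp : ∀ t ∈ spectrum ℝ a, t ≤ M ^ 2 := by
    intro t ht
    have h1 : cfc f a = cfc (fun _ => (0 : ℝ)) a := by
      rw [← hq, hq0, cfc_const_zero]
    have h2 := eqOn_of_cfc_eq_cfc h1 (by fun_prop) (by fun_prop) hasa
    have h3 : max (t - M ^ 2) 0 = 0 := h2 ht
    have := le_max_left (t - M ^ 2) 0
    linarith
  have hle : a ≤ algebraMap ℝ D (M ^ 2) := le_algebraMap_of_spectrum_le hsp
  have hnn : 0 ≤ a := star_mul_self_nonneg c
  have h1 : ‖a‖ ≤ M ^ 2 := (CStarAlgebra.norm_le_iff_le_algebraMap a (sq_nonneg M) hnn).mpr hle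
  rw [ha, CStarRing.norm_star_mul_self] at h1
  have h2 : ‖c‖ ^ 2 ≤ M ^ 2 := by rw [sq]; exact h1
  exact (sq_le_sq₀ (norm_nonneg _) hM).mp h2

end Pool.Agent.FT
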