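import Pool.Agent.Lib.FT.SpecA

set_option autoImplicit false

noncomputable section

namespace Pool.Agent.FT

namespace ORTM

variable {D : Type} [CStarAlgebra D] {τ : D →ₗ[ℂ] ℂ} {P : StarSubalgebra ℂ D} {w : ℕ → D}

theorem isWord_cons {p : Option ℕ × D} {l : List (Option ℕ × D)} :
    IsWord τ P w (p :: l) ↔ ((p.1 = none → p.2 ∈ P ∧ τ p.2 = 0) ∧ (∀ j, p.1 = some j → p.2 = w j)) ∧
      (∀ q ∈ l.head?, p.1 ≠ q.1) ∧ IsWord τ P w l := by
  unfold IsWord
  rw [List.map_cons, List.isChain_cons, List.head?_map]
  constructor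
  · rintro ⟨⟨h1, h2⟩, h3⟩
    refine ⟨h3 p (List.mem_cons_self), ?_, h2, fun q hq => h3 q (List.mem_cons_of_mem _ hq)⟩
    intro q hq
    exact h1 q.1 (by rw [Option.mem_def] at hq ⊢; rw [hq]; rfl)
  · rintro ⟨h1, h2, h3, h4⟩
    refine ⟨⟨?_, h3⟩, ?_⟩
    · intro y hy
      rw [Option.mem_def, Option.map_eq_some_iff] at hy
      obtain ⟨q, hq, rfl⟩ := hy
      exact h2 q hq
    · intro q hq
      rcases List.mem_cons.1 hq with rfl | hq
      · exact h1
      · exact h4 q hq

theorem isWord_nil : IsWord τ P w [] := by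
  refine ⟨by simp, ?_⟩
  intro p hp
  simp at hp

theorem wprod_cons {J : Type} (p : J × D) (l : List (J × D)) : wprod (p :: l) = p.2 * wprod l := by
  simp [wprod]

theorem wprod_append {J : Type} (l l' : List (J × D)) : wprod (l ++ l') = wprod l * wprod l' := by
  simp [wprod]

/-- The reversed list with starred letters. -/
def rv {J : Type} (l : List (J × D)) : List (J × D) := (l.map (fun p => (p.1, star p.2))).reverse

theorem wprod_rv {J : Type} (l : List (J × D)) : wprod (rv l) = star (wprod l) := by
  induction l with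
  | nil => simp [rv, wprod]
  | cons p l ih =>
    have e : rv (p :: l) = rv l ++ [(p.1, star p.2)] := by simp [rv]
    rw [e, wprod_append, ih, wprod_cons p l, star_mul]
    congr 1
    simp [wprod]

theorem rv_last {J : Type} (l : List (J × D)) : (rv l).getLast? = l.head?.map (fun p => (p.1, star p.2)) := by
  unfold rv
  rw [List.getLast?_reverse, List.head?_map]

theorem isWord_rv (hτ : IsFTrace τ) (hS : SymSys τ P w) {l : List (Option ℕ × D)} (h : IsWord τ P w l) :
    IsWord τ P w (rv l) := by
  refine ⟨?_, ?_⟩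
  · have h1 := h.1
    unfold rv
    rw [List.map_reverse, List.isChain_reverse, List.map_map]
    have h2 : (Prod.fst ∘ fun p : Option ℕ × D => (p.1, star p.2)) = Prod.fst := rfl
    rw [h2]
    exact h1.imp fun a b hab => hab.symm
  · intro p hp
    unfold rv at hp
    rw [List.mem_reverse, List.mem_map] at hp
    obtain ⟨q, hq, rfl⟩ := hp
    obtain ⟨h1, h2⟩ := h.2 q hq
    refine ⟨fun hn => ?_, fun j hj => ?_⟩
    · obtain ⟨h3, h4⟩ := h1 hn
      refine ⟨star_mem h3, ?_⟩
      rw [hτ.state.map_star, h4, map_zero]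
    · show star q.2 = w j
      rw [h2 j hj, hS.sa]

theorem isWord_append {l l' : List (Option ℕ × D)} (h : IsWord τ P w l) (h' : IsWord τ P w l')
    (hh : ∀ p ∈ l.getLast?, ∀ q ∈ l'.head?, p.1 ≠ q.1) : IsWord τ P w (l ++ l') := by
  refine ⟨?_, ?_⟩
  · rw [List.map_append, List.isChain_append]
    refine ⟨h.1, h'.1, ?_⟩
    intro x hx y hy
    rw [Option.mem_def, List.getLast?_map, Option.map_eq_some_iff] at hx
    rw [Option.mem_def, List.head?_map, Option.map_eq_some_iff] at hy
    obtain ⟨p, hp, rfl⟩ := hx
    obtain ⟨q, hq, rfl⟩ := hy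
    exact hh p hp q hq
  · intro p hp
    rcases List.mem_append.1 hp with hp | hp
    · exact h.2 p hp
    · exact h'.2 p hp

/-- The value of the product of a starred word and a word. -/
theorem starWord (hτ : IsFTrace τ) (hS : SymSys τ P w) {l l' : List (Option ℕ × D)} (h : IsWord τ P w l)
    (h' : IsWord τ P w l') (hne : l' ≠ []) (hh : ∀ p ∈ l.head?, ∀ q ∈ l'.head?, p.1 ≠ q.1) :
    τ (star (wprod l) * wprod l') = 0 := by
  rw [← wprod_rv, ← wprod_append]
  refine hS.free _ ?_ (isWord_append (isWord_rv hτ hS h) h' ?_)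
  · intro he
    exact hne (List.append_eq_nil_iff.1 he).2
  · intro p hp q hq
    rw [rv_last, Option.mem_def, Option.map_eq_some_iff] at hp
    obtain ⟨p', hp', rfl⟩ := hp
    exact hh p' hp' q hq

/-- Bilinearity. -/
theorem bil (A B : Set D) (f : D → D → ℂ) (hz : ∀ y, f 0 y = 0) (hz' : ∀ x, f x 0 = 0)
    (ha : ∀ x x' y, f (x + x') y = f x y + f x' y) (ha' : ∀ x y y', f x (y + y') = f x y + f x y')
    (hs : ∀ (c : ℂ) x y, f (c • x) y = (starRingEnd ℂ) c * f x y) (hs' : ∀ (c : ℂ) x y, f x (c • y) = c * f x y)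
    (h : ∀ x ∈ A, ∀ y ∈ B, f x y = 0) : ∀ x ∈ Submodule.span ℂ A, ∀ y ∈ Submodule.span ℂ B, f x y = 0 := by
  intro x hx y hy
  induction hx using Submodule.span_induction with
  | zero => exact hz y
  | add a b _ _ h1 h2 => rw [ha, h1, h2, add_zero]
  | smul c a _ h1 => rw [hs, h1, mul_zero]
  | mem x hx =>
    induction hy using Submodule.span_induction with
    | zero => exact hz' x
    | add a b _ _ h1 h2 => rw [ha', h1, h2, add_zero]
    | smul c a _ h1 => rw [hs', h1, mul_zero]
    | mem y hy => exact h x hx y hy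

end ORTM

open ORTM in
/-- (A3) orthogonality relations. -/
theorem pORT : S_ORT := by
  intro D _ τ P w hτ hS
  have h1 : τ 1 = 1 := hτ.state.1
  have hone : (1 : D) = wprod ([] : List (Option ℕ × D)) := by simp [wprod]
  have hw : ∀ (j : ℕ) (l : List (Option ℕ × D)), IsWord τ P w l → (∀ q ∈ l.head?, some j ≠ q.1) →
      IsWord τ P w ((some j, w j) :: l) := by
    intro j l hl hh
    refine isWord_cons.2 ⟨⟨fun h => ?_, ?_⟩, hh, hl⟩
    · simp at h
    · intro i hi
      simp only [Option.some.injEq] at hi
      rw [hi]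
  -- the generators of `WP`
  have hWPgen : ∀ x ∈ (insert 1 {x | ∃ (a : D) (l : List (Option ℕ × D)),
      IsWord τ P w ((none, a) :: l) ∧ x = a * wprod l} : Set D), ∃ l : List (Option ℕ × D), IsWord τ P w l ∧
        x = wprod l ∧ ∀ q ∈ l.head?, q.1 = none := by
    rintro x (rfl | ⟨a, l, hl, rfl⟩)
    · exact ⟨[], isWord_nil, hone, by simp⟩
    · exact ⟨(none, a) :: l, hl, by rw [wprod_cons], by simp⟩
  have hWwgen : ∀ x ∈ ({x | ∃ (j : ℕ) (l : List (Option ℕ × D)),
      IsWord τ P w ((some j, w j) :: l) ∧ x = w j * wprod l} : Set D), ∃ l : List (Option ℕ × D), IsWord τ P w l ∧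
        x = wprod l ∧ l ≠ [] ∧ ∀ q ∈ l.head?, q.1 ≠ none := by
    rintro x ⟨j, l, hl, rfl⟩
    exact ⟨(some j, w j) :: l, hl, by rw [wprod_cons], by simp, by simp⟩
  refine ⟨?_, ?_, ?_, ?_⟩
  · refine bil _ _ (fun e g => τ (star e * g)) ?_ ?_ ?_ ?_ ?_ ?_ ?_
    · intro y
      simp
    · intro y
      simp
    · intro x x' y
      simp [add_mul]
    · intro x y y'
      simp [mul_add]
    · intro c x y
      simp
    · intro c x y
      simp
    · intro x hx y hy
      obtain ⟨l, hl, rfl, hh⟩ := hWPgen x hx
      obtain ⟨l', hl', rfl, hne, hh'⟩ := hWwgen y hy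
      exact starWord hτ hS hl hl' hne fun p hp q hq => by
        rw [hh p hp]
        exact (hh' q hq).symm
  · intro x hx g hg g' hg'
    have key : ∀ g ∈ Ww τ P w, ∀ g' ∈ Ww τ P w, τ (star g * (x - τ x • 1) * g') = 0 := by
      refine bil _ _ (fun e g => τ (star e * (x - τ x • 1) * g)) ?_ ?_ ?_ ?_ ?_ ?_ ?_
      · intro y
        simp
      · intro y
        simp
      · intro x x' y
        simp [add_mul]
      · intro x y y'
        simp [mul_add]
      · intro c x y
        simp
      · intro c x y
        simp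
      · intro y hy z hz
        obtain ⟨l, hl, rfl, hne, hh⟩ := hWwgen y hy
        obtain ⟨l', hl', rfl, hne', hh'⟩ := hWwgen z hz
        have h2 : IsWord τ P w ((none, x - τ x • 1) :: l') := by
          refine isWord_cons.2 ⟨⟨fun _ => ⟨sub_mem hx (P.smul_mem (one_mem P) _), ?_⟩, ?_⟩, ?_, hl'⟩
          · rw [map_sub, map_smul, h1, smul_eq_mul, mul_one, sub_self]
          · intro j hj
            simp at hj
          · intro q hq
            exact (hh' q hq).symm
        have h3 := starWord hτ hS hl h2 (by simp) fun p hp q hq => by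
          simp only [List.head?_cons, Option.mem_def, Option.some.injEq] at hq
          rw [← hq]
          exact hh p hp
        rw [wprod_cons, ← mul_assoc] at h3
        exact h3
    have h2 := key g hg g' hg'
    have h3 : star g * x * g' = star g * (x - τ x • 1) * g' + τ x • (star g * g') := by
      simp only [mul_sub, sub_mul, mul_smul_comm, smul_mul_assoc, mul_one]
      abel
    rw [h3, map_add, h2, map_smul, zero_add, smul_eq_mul]
  · intro j e he
    unfold WP at he
    induction he using Submodule.span_induction with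
    | zero => rw [mul_zero]; exact Submodule.zero_mem _
    | add a b _ _ ha hb => rw [mul_add]; exact Submodule.add_mem _ ha hb
    | smul c a _ ha => rw [mul_smul_comm]; exact Submodule.smul_mem _ _ ha
    | mem x hx =>
      obtain ⟨l, hl, rfl, hh⟩ := hWPgen x hx
      refine Submodule.subset_span ⟨j, l, hw j l hl ?_, rfl⟩
      intro q hq
      rw [hh q hq]
      simp
  · intro i j
    by_cases hij : i = j
    · subst hij
      intro e _ e' _
      rw [if_pos rfl, star_mul, hS.sa]
      congr 1
      rw [mul_assoc, ← mul_assoc (w i) (w i), hS.sq, one_mul]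
    · simp only [if_neg hij]
      refine bil _ _ (fun e g => τ (star (w i * e) * (w j * g))) ?_ ?_ ?_ ?_ ?_ ?_ ?_
      · intro y
        simp
      · intro y
        simp
      · intro x x' y
        simp [add_mul, mul_add]
      · intro x y y'
        simp [mul_add]
      · intro c x y
        simp
      · intro c x y
        simp
      · intro x hx y hy
        obtain ⟨l, hl, rfl, hh⟩ := hWPgen x hx
        obtain ⟨l', hl', rfl, hh'⟩ := hWPgen y hy
        have h2 := hw i l hl fun q hq => by
          rw [hh q hq]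
          simp
        have h3 := hw j l' hl' fun q hq => by
          rw [hh' q hq]
          simp
        have h4 := starWord hτ hS h2 h3 (by simp) fun p hp q hq => by
          simp only [List.head?_cons, Option.mem_def, Option.some.injEq] at hp hq
          rw [← hp, ← hq]
          simpa using hij
        rw [wprod_cons, wprod_cons] at h4
        exact h4

end Pool.Agent.FT
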