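import Pool.Agent.Lib.FT.A.Rei

/-!
# C44, A12: the tail of a system is a symmetric system over the head (helper71)
-/

set_option autoImplicit false

namespace Pool.Agent.FT

/-- (A12) -/
theorem pPN (hG : S_GRP0) (hC : S_CLO) : S_PN := by
  intro d D _ τ ι v h N
  let F : Option ℕ → StarSubalgebra ℂ D :=
    fun o => o.elim ι.range (fun k => StarAlgebra.adjoin ℂ {v k})
  have hF : IsFree τ F := h.free
  let J : Set (Option ℕ) := {o | ∀ k, o = some k → k < N}
  have h1 := hC D τ h.tr {i // i ∉ J} (⨆ j ∈ J, F j) (fun i => F i)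
    (hG D τ h.tr (Option ℕ) F hF J)
  have hPN : PN ι v N ≤ (⨆ j ∈ J, F j).topologicalClosure := by
    refine StarSubalgebra.topologicalClosure_mono (sup_le ?_ ?_)
    · have : F none ≤ ⨆ j ∈ J, F j := le_iSup₂_of_le (f := fun j (_ : j ∈ J) => F j) none
        (by intro k hk; cases hk) le_rfl
      exact this
    · refine StarAlgebra.adjoin_le ?_
      rintro x ⟨k, hk, rfl⟩
      have : F (some k) ≤ ⨆ j ∈ J, F j := le_iSup₂_of_le (f := fun j (_ : j ∈ J) => F j) (some k)
        (by intro k' hk'; cases hk'; exact hk) le_rfl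
      exact this (StarAlgebra.subset_adjoin ℂ {v k} rfl)
  have hJ : ∀ j : ℕ, (some (N + j) : Option ℕ) ∉ J := by
    intro j hj
    have := hj (N + j) rfl
    omega
  refine ⟨StarSubalgebra.isClosed_topologicalClosure _, fun j => h.sa _, fun j => h.sq _, ?_⟩
  intro l hne hl
  have h2 : IsFree τ (fun o : Option ℕ => o.elim (PN ι v N)
      (fun j => StarAlgebra.adjoin ℂ {v (N + j)})) := by
    refine Rei.reindex h1 (fun o => o.map fun j => ⟨some (N + j), hJ j⟩) ?_ ?_
    · refine Option.map_injective fun a b hab => ?_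
      have := congrArg Subtype.val hab
      simp only [Option.some.injEq] at this
      omega
    · intro o
      cases o with
      | none => exact hPN
      | some j => exact le_rfl
  refine h2 l hne hl.1 ?_
  rintro ⟨o, a⟩ hp
  have h3 := hl.2 _ hp
  cases o with
  | none => exact h3.1 rfl
  | some j =>
    have h4 := h3.2 j rfl
    simp only at h4
    subst h4
    exact ⟨StarAlgebra.subset_adjoin ℂ {v (N + j)} rfl, h.tz _⟩

end Pool.Agent.FT
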