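import Pool.Agent.Lib.FT.SpecA

/-!
# C44, block A: elementary facts on free families (helper71): re-indexing, trace preserving images
-/

set_option autoImplicit false

namespace Pool.Agent.FT

namespace Rei

/-- an injectively indexed family of smaller subalgebras of a free family is free -/
theorem reindex {A : Type*} [CStarAlgebra A] {φ : A →ₗ[ℂ] ℂ} {I I' : Type*}
    {S : I → StarSubalgebra ℂ A} {S' : I' → StarSubalgebra ℂ A} (h : IsFree φ S) (g : I' → I)
    (hg : Function.Injective g) (hS : ∀ i, S' i ≤ S (g i)) : IsFree φ S' := by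
  intro l hl hc hm
  have h1 := h (l.map fun p => (g p.1, p.2)) (by simpa using hl) (by
    rw [List.map_map]
    have e : (Prod.fst ∘ fun p : I' × A => (g p.1, p.2)) = g ∘ Prod.fst := rfl
    rw [e, ← List.map_map, List.isChain_map]
    exact hc.imp fun a b hab h => hab (hg h)) (by
    intro p hp
    rw [List.mem_map] at hp
    obtain ⟨q, hq, rfl⟩ := hp
    exact ⟨hS _ (hm q hq).1, (hm q hq).2⟩)
  rw [List.map_map] at h1
  exact h1

end Rei

end Pool.Agent.FT
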