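import Pool.Agent.Lib.FT.A.Img

/-!
# C44, A11: from the data of the goal to a system (helper71)
-/

set_option autoImplicit false

open MeasureTheory

namespace Pool.Agent.FT

theorem pSYS (hT : S_TR) (hA : S_ASM) : S_SYS := by
  intro d B _ D _ τ e φ ι κ hB he hD hι hκ
  -- traces
  have hτ : IsFTrace τ := by
    refine hT B τ ℕ _ hB ?_
    rintro k a ⟨x, rfl⟩ b ⟨y, rfl⟩
    change τ (e k x * e k y) = τ (e k y * e k x)
    rw [← map_mul, ← map_mul, mul_comm x y]
  have hφ : IsFTrace φ := by
    refine hT D φ Bool _ hD ?_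
    intro i
    cases i with
    | true =>
      rintro a ⟨x, rfl⟩ b ⟨y, rfl⟩
      change φ (ι x * ι y) = φ (ι y * ι x)
      rw [← map_mul, ← map_mul, mul_comm x y]
    | false =>
      rintro a ⟨x, rfl⟩ b ⟨y, rfl⟩
      change φ (κ x * κ y) = φ (κ y * κ x)
      rw [← map_mul, ← map_mul, hκ, hκ, hτ.trace]
  -- the symmetries
  let b : ℕ → B := fun k => e k (1, -1)
  have hbs : ∀ k, star (b k) = b k := by
    intro k
    change star (e k (1, -1)) = e k (1, -1)
    rw [← map_star]
    congr 1
    ext <;> simp
  have hbq : ∀ k, b k * b k = 1 := by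
    intro k
    change e k (1, -1) * e k (1, -1) = 1
    rw [← map_mul]
    have : ((1, -1) * (1, -1) : ℂ × ℂ) = 1 := by ext <;> simp
    rw [this, map_one]
  have hbt : ∀ k, τ (b k) = 0 := by
    intro k
    change τ (e k (1, -1)) = 0
    rw [he]
    simp
  have hbe : ∀ k, StarAlgebra.adjoin ℂ {b k} ≤ (e k).range := by
    intro k
    refine StarAlgebra.adjoin_le ?_
    rintro x rfl
    exact ⟨(1, -1), rfl⟩
  have heb : ∀ k, (e k).range ≤ StarAlgebra.adjoin ℂ {b k} := by
    rintro k x ⟨p, rfl⟩
    change e k p ∈ _
    have hp : p = ((p.1 + p.2) / 2) • (1 : ℂ × ℂ) + ((p.1 - p.2) / 2) • ((1, -1) : ℂ × ℂ) := by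
      ext <;> simp <;> ring
    rw [hp, map_add, map_smul, map_smul, map_one]
    exact add_mem (StarSubalgebra.smul_mem _ (one_mem _) _)
      (StarSubalgebra.smul_mem _ (StarAlgebra.subset_adjoin ℂ {b k} rfl) _)
  have hbf : IsFree τ (fun k => StarAlgebra.adjoin ℂ {b k}) :=
    Rei.reindex hB.free id Function.injective_id hbe
  have hbg : (StarAlgebra.adjoin ℂ (Set.range b)).topologicalClosure = ⊤ := by
    rw [eq_top_iff, ← hB.generate]
    refine StarSubalgebra.topologicalClosure_mono (iSup_le fun k => (heb k).trans ?_)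
    exact StarAlgebra.adjoin_mono (Set.singleton_subset_iff.2 ⟨k, rfl⟩)
  -- freeness in `D`
  let v : ℕ → D := fun k => κ (b k)
  let F : Option ℕ → StarSubalgebra ℂ D :=
    fun o => o.elim ι.range (fun k => StarAlgebra.adjoin ℂ {v k})
  have hvκ : ∀ k, StarAlgebra.adjoin ℂ {v k} ≤ κ.range := by
    intro k
    refine StarAlgebra.adjoin_le ?_
    rintro x rfl
    exact ⟨b k, rfl⟩
  let J : Set (Option ℕ) := {o | o ≠ none}
  have hfree : IsFree φ F := by
    refine hA D φ (Option ℕ) F J κ.range ?_ ?_ ?_
    · intro j hj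
      cases j with
      | none => exact absurd rfl hj
      | some k => exact hvκ k
    · refine Rei.reindex hD.free (fun o => o.isSome) ?_ ?_
      · rintro (_ | ⟨i, hi⟩) (_ | ⟨j, hj⟩) hij
        · rfl
        · simp at hij
        · simp at hij
        · have h1 : i = none := not_not.1 hi
          have h2 : j = none := not_not.1 hj
          subst h1
          subst h2
          rfl
      · rintro (_ | ⟨i, hi⟩)
        · exact le_rfl
        · have h1 : i = none := not_not.1 hi
          subst h1
          exact le_rfl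
    · refine Rei.reindex (Rei.image hbf κ hκ) (fun j : J => (j : Option ℕ).getD 0) ?_ ?_
      · rintro ⟨i, hi⟩ ⟨j, hj⟩ hij
        cases i with
        | none => exact absurd rfl hi
        | some i =>
          cases j with
          | none => exact absurd rfl hj
          | some j =>
            simp only [Option.getD_some] at hij
            subst hij
            rfl
      · rintro ⟨i, hi⟩
        cases i with
        | none => exact absurd rfl hi
        | some k =>
          refine StarAlgebra.adjoin_le ?_
          rintro x rfl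
          exact ⟨b k, StarAlgebra.subset_adjoin ℂ {b k} rfl, rfl⟩
  -- generation
  have hgen : (ι.range ⊔ StarAlgebra.adjoin ℂ (Set.range v)).topologicalClosure = ⊤ := by
    rw [eq_top_iff, ← hD.generate]
    refine StarSubalgebra.topologicalClosure_minimal (iSup_le ?_)
      (StarSubalgebra.isClosed_topologicalClosure _)
    intro i
    cases i with
    | true => exact le_sup_left.trans (StarSubalgebra.le_topologicalClosure _)
    | false =>
      rintro x ⟨y, rfl⟩
      change κ y ∈ (ι.range ⊔ StarAlgebra.adjoin ℂ (Set.range v)).topologicalClosure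
      have hκc : Continuous κ := AddMonoidHomClass.continuous_of_bound κ 1
        (fun x => by rw [one_mul]; exact NonUnitalStarAlgHom.norm_apply_le κ x)
      have hy : y ∈ (StarAlgebra.adjoin ℂ (Set.range b)).topologicalClosure := by
        rw [hbg]
        trivial
      have hle : StarAlgebra.adjoin ℂ (Set.range b) ≤
          (ι.range ⊔ StarAlgebra.adjoin ℂ (Set.range v)).comap κ := by
        refine StarAlgebra.adjoin_le ?_
        rintro x ⟨k, rfl⟩
        exact (le_sup_right (a := ι.range)) (StarAlgebra.subset_adjoin ℂ _ ⟨k, rfl⟩)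
      exact map_mem_closure hκc hy (fun z hz => hle hz)
  refine ⟨hτ, ⟨b, hbs, hbq, hbt, hbf, hbg⟩, ⟨v, ⟨hφ, hι, ?_, ?_, ?_, hfree⟩, hgen⟩⟩
  · intro k
    change star (κ (b k)) = κ (b k)
    rw [← map_star, hbs]
  · intro k
    change κ (b k) * κ (b k) = 1
    rw [← map_mul, hbq, map_one]
  · intro k
    change φ (κ (b k)) = 0
    rw [hκ, hbt]

end Pool.Agent.FT
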