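import Pool.Agent.Lib.FT.SpecA

/-!
# C44, A10: a reduced free product of tracial algebras has a faithful trace (helper77)
-/

set_option autoImplicit false

namespace Pool.Agent.FT

namespace TR

variable {D : Type} [CStarAlgebra D] {I : Type}

/-- valid lists -/
def Vl (φ : D →ₗ[ℂ] ℂ) (S : I → StarSubalgebra ℂ D) (l : List (I × D)) : Prop :=
  (l.map Prod.fst).IsChain (· ≠ ·) ∧ ∀ p ∈ l, p.2 ∈ S p.1 ∧ φ p.2 = 0

/-- product of the letters -/
def pr (l : List (I × D)) : D := (l.map Prod.snd).prod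

theorem pr_nil : pr ([] : List (I × D)) = 1 := rfl

theorem pr_cons (p : I × D) (l : List (I × D)) : pr (p :: l) = p.2 * pr l := by
  rw [pr, List.map_cons, List.prod_cons, ← pr]

/-- span of the words -/
noncomputable def V (φ : D →ₗ[ℂ] ℂ) (S : I → StarSubalgebra ℂ D) : Submodule ℂ D :=
  Submodule.span ℂ {x | ∃ l, Vl φ S l ∧ x = pr l}

variable {φ : D →ₗ[ℂ] ℂ} {S : I → StarSubalgebra ℂ D}

theorem Vl.nil : Vl φ S [] := ⟨List.IsChain.nil, by simp⟩

theorem Vl.tail {p : I × D} {l : List (I × D)} (h : Vl φ S (p :: l)) : Vl φ S l := by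
  refine ⟨?_, fun q hq => h.2 q (List.mem_cons_of_mem _ hq)⟩
  have h1 := h.1
  rw [List.map_cons] at h1
  exact h1.tail

theorem Vl.cons {i : I} {a : D} {l : List (I × D)} (h : Vl φ S l) (ha : a ∈ S i) (h0 : φ a = 0)
    (hne : ∀ p ∈ l.head?, i ≠ p.1) : Vl φ S ((i, a) :: l) := by
  refine ⟨?_, ?_⟩
  · cases l with
    | nil => exact List.IsChain.singleton _
    | cons p l =>
      rw [List.map_cons, List.map_cons]
      refine List.IsChain.cons_cons (hne p (by simp)) ?_
      exact h.1
  · intro q hq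
    rcases List.mem_cons.1 hq with rfl | hq
    · exact ⟨ha, h0⟩
    · exact h.2 q hq

/-- replace the first letter -/
theorem Vl.repl {i : I} {a b : D} {l : List (I × D)} (h : Vl φ S ((i, b) :: l)) (ha : a ∈ S i)
    (h0 : φ a = 0) : Vl φ S ((i, a) :: l) := by
  refine ⟨h.1, ?_⟩
  intro q hq
  rcases List.mem_cons.1 hq with rfl | hq
  · exact ⟨ha, h0⟩
  · exact h.2 q (List.mem_cons_of_mem _ hq)

theorem mem_V {l : List (I × D)} (h : Vl φ S l) : pr l ∈ V φ S :=
  Submodule.subset_span ⟨l, h, rfl⟩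

/-- centring -/
theorem cen (h1 : φ 1 = 1) {i : I} {a : D} (ha : a ∈ S i) :
    a - φ a • 1 ∈ S i ∧ φ (a - φ a • 1) = 0 := by
  refine ⟨sub_mem ha ((S i).smul_mem (one_mem _) _), ?_⟩
  rw [map_sub, map_smul, h1, smul_eq_mul, mul_one, sub_self]

/-- left multiplication by a centred element -/
theorem mulc (h1 : φ 1 = 1) {i : I} {a : D} (ha : a ∈ S i) (h0 : φ a = 0) {l : List (I × D)}
    (hl : Vl φ S l) : Vl φ S ((i, a) :: l) ∨ ∃ b l', l = (i, b) :: l' ∧ b ∈ S i ∧
      Vl φ S ((i, a * b - φ (a * b) • 1) :: l') ∧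
      a * pr l = φ (a * b) • pr l' + pr ((i, a * b - φ (a * b) • 1) :: l') := by
  cases l with
  | nil => exact Or.inl (hl.cons ha h0 (by simp))
  | cons p l' =>
    by_cases hi : i = p.1
    · right
      obtain ⟨j, b⟩ := p
      simp only at hi
      subst hi
      have hb := (hl.2 (i, b) List.mem_cons_self).1
      have hc := cen h1 ((S i).mul_mem ha hb)
      refine ⟨b, l', rfl, hb, hl.repl hc.1 hc.2, ?_⟩
      rw [pr_cons, pr_cons]
      simp only
      rw [sub_mul, smul_mul_assoc, one_mul, add_sub_cancel, mul_assoc]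
    · exact Or.inl (hl.cons ha h0 (by
        intro q hq
        simp only [List.head?_cons, Option.mem_some_iff] at hq
        rw [← hq]
        exact hi))

theorem V_mul (h1 : φ 1 = 1) {i : I} {a : D} (ha : a ∈ S i) {x : D} (hx : x ∈ V φ S) :
    a * x ∈ V φ S := by
  induction hx using Submodule.span_induction with
  | mem x hx =>
    obtain ⟨l, hl, rfl⟩ := hx
    have hc := cen h1 ha
    have e : a * pr l = φ a • pr l + (a - φ a • 1) * pr l := by
      rw [sub_mul, smul_mul_assoc, one_mul, add_sub_cancel]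
    rw [e]
    refine add_mem ((V φ S).smul_mem _ (mem_V hl)) ?_
    rcases mulc h1 hc.1 hc.2 hl with h2 | ⟨b, l', rfl, hb, h2, h3⟩
    · have := mem_V h2
      rwa [pr_cons] at this
    · rw [h3]
      exact add_mem ((V φ S).smul_mem _ (mem_V hl.tail)) (mem_V h2)
  | zero => rw [mul_zero]; exact zero_mem _
  | add x y _ _ hx hy => rw [mul_add]; exact add_mem hx hy
  | smul c x _ hx => rw [mul_smul_comm]; exact (V φ S).smul_mem _ hx

/-- the words span the algebra -/
theorem iSup_le_V (h1 : φ 1 = 1) {x : D} (hx : x ∈ ⨆ i, S i) : x ∈ V φ S := by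
  let T : StarSubalgebra ℂ D :=
    { carrier := {x | (∀ y ∈ V φ S, x * y ∈ V φ S) ∧ ∀ y ∈ V φ S, star x * y ∈ V φ S}
      mul_mem' := by
        rintro a b ⟨ha, ha'⟩ ⟨hb, hb'⟩
        refine ⟨fun y hy => ?_, fun y hy => ?_⟩
        · rw [mul_assoc]; exact ha _ (hb _ hy)
        · rw [star_mul, mul_assoc]; exact hb' _ (ha' _ hy)
      one_mem' := by
        refine ⟨fun y hy => ?_, fun y hy => ?_⟩
        · rwa [one_mul]
        · rwa [star_one, one_mul]
      add_mem' := by
        rintro a b ⟨ha, ha'⟩ ⟨hb, hb'⟩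
        refine ⟨fun y hy => ?_, fun y hy => ?_⟩
        · rw [add_mul]; exact add_mem (ha _ hy) (hb _ hy)
        · rw [star_add, add_mul]; exact add_mem (ha' _ hy) (hb' _ hy)
      zero_mem' := by
        refine ⟨fun y hy => ?_, fun y hy => ?_⟩
        · rw [zero_mul]; exact zero_mem _
        · rw [star_zero, zero_mul]; exact zero_mem _
      algebraMap_mem' := by
        intro c
        refine ⟨fun y hy => ?_, fun y hy => ?_⟩
        · rw [← Algebra.smul_def]; exact (V φ S).smul_mem _ hy
        · rw [← algebraMap_star_comm, ← Algebra.smul_def]; exact (V φ S).smul_mem _ hy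
      star_mem' := by
        rintro a ⟨ha, ha'⟩
        refine ⟨ha', ?_⟩
        rw [star_star]
        exact ha }
  have hT : ⨆ i, S i ≤ T := iSup_le fun i a ha =>
    ⟨fun y hy => V_mul h1 ha hy, fun y hy => V_mul h1 (star_mem ha) hy⟩
  have h2 := (hT hx).1 1 (by
    have := mem_V (φ := φ) (S := S) Vl.nil
    rwa [pr_nil] at this)
  rwa [mul_one] at h2

/-- star of a word -/
theorem Vl.star' (hφ : IsState φ) {l : List (I × D)} (h : Vl φ S l) :
    ∃ l', Vl φ S l' ∧ l'.length = l.length ∧ pr l' = star (pr l) ∧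
      l'.map Prod.fst = (l.map Prod.fst).reverse ∧ l' = (l.map fun p => (p.1, star p.2)).reverse := by
  refine ⟨(l.map fun p => (p.1, star p.2)).reverse, ⟨?_, ?_⟩, by simp, ?_, ?_, rfl⟩
  · rw [List.map_reverse, List.map_map, List.isChain_reverse]
    have h1 := h.1
    refine List.IsChain.imp (fun a b hab => ?_) h1
    exact hab.symm
  · intro p hp
    rw [List.mem_reverse, List.mem_map] at hp
    obtain ⟨q, hq, rfl⟩ := hp
    refine ⟨star_mem (h.2 q hq).1, ?_⟩
    simp only
    rw [hφ.map_star, (h.2 q hq).2, map_zero]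
  · rw [pr, pr, List.map_reverse, List.map_map]
    induction l with
    | nil => simp
    | cons a l ih =>
      have e : (List.map Prod.snd (a :: l)).prod = a.2 * (List.map Prod.snd l).prod := by
        rw [List.map_cons, List.prod_cons]
      rw [e, star_mul, List.map_cons, List.reverse_cons, List.prod_append, ih h.tail]
      simp
  · rw [List.map_reverse, List.map_map]
    rfl

/-- multiplication by a centred element kills long words -/
theorem kill (h1 : φ 1 = 1) (hf : IsFree φ S) {i : I} {a : D} (ha : a ∈ S i) (h0 : φ a = 0)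
    {l : List (I × D)} (hl : Vl φ S l) (hlen : 2 ≤ l.length) : φ (a * pr l) = 0 := by
  rcases mulc h1 ha h0 hl with h2 | ⟨b, l', rfl, hb, h2, h3⟩
  · have := hf _ (List.cons_ne_nil _ _) h2.1 h2.2
    rwa [← pr, pr_cons] at this
  · have h4 := hf _ (List.cons_ne_nil _ _) h2.1 h2.2
    have h5 : l' ≠ [] := by
      rintro rfl
      simp at hlen
    have h6 := hf _ h5 hl.tail.1 hl.tail.2
    rw [← pr] at h4 h6
    rw [h3, map_add, map_smul, h6, h4, smul_zero, add_zero]

theorem kill' (hφ : IsState φ) (hf : IsFree φ S) {i : I} {a : D} (ha : a ∈ S i) (h0 : φ a = 0)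
    {l : List (I × D)} (hl : Vl φ S l) (hlen : 2 ≤ l.length) : φ (pr l * a) = 0 := by
  obtain ⟨l', h1, h2, h3, -⟩ := hl.star' hφ
  have h4 : φ (star (pr l * a)) = 0 := by
    rw [star_mul, ← h3]
    refine kill hφ.1 hf (star_mem ha) ?_ h1 (by omega)
    rw [hφ.map_star, h0, map_zero]
  rw [hφ.map_star] at h4
  exact (map_eq_zero _).1 h4

/-- the trace property for a letter and a word -/
theorem tr1 (hφ : IsState φ) (hf : IsFree φ S)
    (ht : ∀ i, ∀ a ∈ S i, ∀ b ∈ S i, φ (a * b) = φ (b * a)) {i : I} {a : D} (ha : a ∈ S i)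
    (h0 : φ a = 0) {l : List (I × D)} (hl : Vl φ S l) : φ (a * pr l) = φ (pr l * a) := by
  match l, hl with
  | [], _ => rw [pr_nil, mul_one, one_mul]
  | [(j, b)], hl =>
    have hb := hl.2 (j, b) List.mem_cons_self
    simp only at hb
    have e : pr [(j, b)] = b := by rw [pr_cons, pr_nil, mul_one]
    rw [e]
    by_cases hij : i = j
    · subst hij
      exact ht i a ha b hb.1
    · have h1 : Vl φ S [(i, a), (j, b)] := hl.cons ha h0 (by
        intro q hq
        simp only [List.head?_cons, Option.mem_some_iff] at hq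
        rw [← hq]
        exact hij)
      have h2 : Vl φ S [(i, a)] := Vl.nil.cons ha h0 (by simp)
      have h3 : Vl φ S [(j, b), (i, a)] := h2.cons hb.1 hb.2 (by
        intro q hq
        simp only [List.head?_cons, Option.mem_some_iff] at hq
        rw [← hq]
        exact fun h => hij h.symm)
      have h4 := hf _ (List.cons_ne_nil _ _) h1.1 h1.2
      have h5 := hf _ (List.cons_ne_nil _ _) h3.1 h3.2
      simp only [List.map_cons, List.map_nil, List.prod_cons, List.prod_nil, mul_one] at h4 h5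
      rw [h4, h5]
  | p :: q :: l, hl =>
    rw [kill hφ.1 hf ha h0 hl (by simp), kill' hφ hf ha h0 hl (by simp)]

theorem tr2 (hφ : IsState φ) (hf : IsFree φ S)
    (ht : ∀ i, ∀ a ∈ S i, ∀ b ∈ S i, φ (a * b) = φ (b * a)) {i : I} {a : D} (ha : a ∈ S i)
    {x : D} (hx : x ∈ V φ S) : φ (a * x) = φ (x * a) := by
  induction hx using Submodule.span_induction with
  | mem x hx =>
    obtain ⟨l, hl, rfl⟩ := hx
    have hc := cen hφ.1 ha
    have e := tr1 hφ hf ht hc.1 hc.2 hl
    rw [sub_mul, mul_sub, map_sub, map_sub, smul_mul_assoc, mul_smul_comm, one_mul, mul_one] at e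
    exact sub_left_injective e
  | zero => rw [mul_zero, zero_mul]
  | add x y _ _ hx hy => rw [mul_add, add_mul, map_add, map_add, hx, hy]
  | smul c x _ hx => rw [mul_smul_comm, smul_mul_assoc, map_smul, map_smul, hx]

/-- the trace property on the generated algebra -/
theorem tr3 (hφ : IsState φ) (hf : IsFree φ S)
    (ht : ∀ i, ∀ a ∈ S i, ∀ b ∈ S i, φ (a * b) = φ (b * a)) {x y : D} (hx : x ∈ ⨆ i, S i)
    (hy : y ∈ ⨆ i, S i) : φ (x * y) = φ (y * x) := by
  let T : StarSubalgebra ℂ D :=
    { carrier := {x | x ∈ (⨆ i, S i) ∧ ∀ y ∈ (⨆ i, S i), φ (x * y) = φ (y * x)}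
      mul_mem' := by
        rintro a b ⟨ha, ha'⟩ ⟨hb, hb'⟩
        refine ⟨mul_mem ha hb, fun y hy => ?_⟩
        rw [mul_assoc, ha' _ (mul_mem hb hy), mul_assoc, hb' _ (mul_mem hy ha), mul_assoc]
      one_mem' := ⟨one_mem _, fun y _ => by rw [one_mul, mul_one]⟩
      add_mem' := by
        rintro a b ⟨ha, ha'⟩ ⟨hb, hb'⟩
        exact ⟨add_mem ha hb, fun y hy => by
          rw [add_mul, mul_add, map_add, map_add, ha' _ hy, hb' _ hy]⟩
      zero_mem' := ⟨zero_mem _, fun y _ => by rw [zero_mul, mul_zero]⟩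
      algebraMap_mem' := fun c => ⟨algebraMap_mem _ c, fun y _ => by rw [Algebra.commutes]⟩
      star_mem' := by
        rintro a ⟨ha, ha'⟩
        refine ⟨star_mem ha, fun y hy => ?_⟩
        have h1 := ha' _ (star_mem hy)
        have h2 := congrArg (starRingEnd ℂ) h1
        rw [← hφ.map_star, ← hφ.map_star, star_mul, star_mul, star_star] at h2
        exact h2.symm }
  have hT : ⨆ i, S i ≤ T := iSup_le fun i a ha =>
    ⟨(le_iSup S i) ha, fun y hy => tr2 hφ hf ht ha (iSup_le_V hφ.1 hy)⟩
  exact (hT hx).2 y hy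

end TR

theorem pTR : S_TR := by
  intro D _ φ I S h ht
  have hφ := h.state
  have hc := hφ.continuous
  have hdense : ∀ x : D, x ∈ closure (((⨆ i, S i : StarSubalgebra ℂ D)) : Set D) := by
    intro x
    have h1 : x ∈ (⨆ i, S i).topologicalClosure := by
      rw [h.generate]
      trivial
    exact h1
  have htr1 : ∀ y ∈ (⨆ i, S i), ∀ x, φ (x * y) = φ (y * x) := by
    intro y hy x
    have hcl : IsClosed {x : D | φ (x * y) = φ (y * x)} :=
      isClosed_eq (hc.comp (continuous_id.mul continuous_const))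
        (hc.comp (continuous_const.mul continuous_id))
    exact closure_minimal (fun x hx => TR.tr3 hφ h.free ht hx hy) hcl (hdense x)
  have htr : ∀ x y, φ (x * y) = φ (y * x) := by
    intro x y
    have hcl : IsClosed {y : D | φ (x * y) = φ (y * x)} :=
      isClosed_eq (hc.comp (continuous_const.mul continuous_id))
        (hc.comp (continuous_id.mul continuous_const))
    exact closure_minimal (fun y hy => htr1 y hy x) hcl (hdense y)
  refine ⟨hφ, htr, fun x hx => h.gns x fun y z => ?_⟩
  have h0 : n2 φ x = 0 := by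
    rw [n2, hx]
    simp
  have h1 := hφ.cs (star (z * y)) x
  rw [h0, mul_zero, star_star] at h1
  rw [htr, ← mul_assoc]
  exact norm_eq_zero.1 (le_antisymm h1 (norm_nonneg _))

end Pool.Agent.FT
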